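import Mathlib

/-! Deterministic Turing machines with a one-way read-only input tape and `k` work tapes,
linear time, and bounds on the number of head reversals. -/

namespace Pool.Agent.Lib57.RTM

/-- head moves -/
inductive Dir : Type
  | left
  | stay
  | right
  deriving DecidableEq

/-- the displacement of a move -/
def Dir.shift : Dir → ℤ
  | .left => -1
  | .stay => 0
  | .right => 1

/-- A deterministic machine with a one-way read-only input tape over the alphabet `α` and `k`
work tapes, each with one head. The transition function gets the state, the scanned input symbol
(`none` behind the last symbol of the input) and the symbols scanned on the work tapes; it is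
either undefined (the machine halts) or gives the new state, whether the input head moves one
cell to the right, the symbols written on the work tapes and the moves of the work-tape heads. -/
structure Machine (α : Type) (k : ℕ) where
  Q : Type
  Γ : Type
  finQ : Finite Q
  finΓ : Finite Γ
  blank : Γ
  start : Q
  acc : Q → Bool
  δ : Q → Option α → (Fin k → Γ) → Option (Q × Bool × (Fin k → Γ) × (Fin k → Dir))

/-- A configuration: state, position of the input head, positions of the work-tape heads,
contents of the (two-way infinite) work tapes; moreover, for each work tape, the direction of
the last move of its head (`stay` if it has not moved) and the number of its reversals so far. -/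
structure Cfg {α : Type} {k : ℕ} (M : Machine α k) where
  q : M.Q
  inp : ℕ
  pos : Fin k → ℤ
  tape : Fin k → ℤ → M.Γ
  last : Fin k → Dir
  rev : Fin k → ℕ

namespace Machine

variable {α : Type} {k : ℕ} (M : Machine α k)

/-- the initial configuration -/
def init : Cfg M where
  q := M.start
  inp := 0
  pos := fun _ => 0
  tape := fun _ _ => M.blank
  last := fun _ => .stay
  rev := fun _ => 0

/-- The successor of a configuration on the input `w`, if there is one. A reversal of a head is
a move in the direction opposite to that of its last move; steps in which the head does not move
are ignored. -/
def step (w : List α) (c : Cfg M) : Option (Cfg M) :=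
  (M.δ c.q w[c.inp]? (fun i => c.tape i (c.pos i))).map fun r =>
    { q := r.1
      inp := c.inp + if r.2.1 then 1 else 0
      pos := fun i => c.pos i + (r.2.2.2 i).shift
      tape := fun i => Function.update (c.tape i) (c.pos i) (r.2.2.1 i)
      last := fun i => if r.2.2.2 i = .stay then c.last i else r.2.2.2 i
      rev := fun i =>
        if r.2.2.2 i ≠ .stay ∧ c.last i ≠ .stay ∧ r.2.2.2 i ≠ c.last i then c.rev i + 1
        else c.rev i }

/-- The configuration after `t` steps on the input `w` (after halting it does not change). -/
def run (w : List α) (t : ℕ) : Cfg M := (fun c => (M.step w c).getD c)^[t] M.init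

/-- The machine has halted after `t` steps. -/
def HaltedAt (w : List α) (t : ℕ) : Prop := M.step w (M.run w t) = none

/-- The machine halts on every input `w` within `c * |w|` steps, for some constant `c`. -/
def LinearTime : Prop := ∃ c : ℕ, ∀ w : List α, M.HaltedAt w (c * w.length)

/-- On every input each work-tape head makes at most `m` reversals. -/
def RevBounded (m : ℕ) : Prop := ∀ (w : List α) (t : ℕ) (i : Fin k), (M.run w t).rev i ≤ m

/-- The machine accepts `w`: it halts in an accepting state. -/
def Accepts (w : List α) : Prop := ∃ t, M.HaltedAt w t ∧ M.acc (M.run w t).q = true

end Machine

/-- The class `1-kT-DTIME-REV(Lin, m)` of languages over the alphabet `α`: those accepted by a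
deterministic machine with a one-way input tape and `k` work tapes that works in linear time and
is `m`-reversal-bounded. -/
def LinRev (α : Type) (k m : ℕ) : Set (Language α) :=
  {L | ∃ M : Machine α k, M.LinearTime ∧ M.RevBounded m ∧ ∀ w, w ∈ L ↔ M.Accepts w}

/-- The class for `(k, m)` is contained in the one for `(k', m')`, over every finite alphabet. -/
def ClassLE (k m k' m' : ℕ) : Prop := ∀ α : Type, Finite α → LinRev α k m ⊆ LinRev α k' m'

/-- The class for `(k, m)` is properly contained in the one for `(k', m')`. -/
def ClassLT (k m k' m' : ℕ) : Prop := ClassLE k m k' m' ∧ ¬ ClassLE k' m' k m

end Pool.Agent.Lib57.RTM
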