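import Mathlib
import Pool.Agent.Lib_helper57.RTM.Defs

/-! Basic facts on runs; refined classes with one reversal bound for each tape; embeddings. -/

namespace Pool.Agent.Lib57.RTM

open Function

namespace Machine

variable {α : Type} {k : ℕ} (M : Machine α k)

/-- the effect of a transition -/
def nxt (c : Cfg M) (r : M.Q × Bool × (Fin k → M.Γ) × (Fin k → Dir)) : Cfg M where
  q := r.1
  inp := c.inp + if r.2.1 then 1 else 0
  pos := fun i => c.pos i + (r.2.2.2 i).shift
  tape := fun i => Function.update (c.tape i) (c.pos i) (r.2.2.1 i)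
  last := fun i => if r.2.2.2 i = .stay then c.last i else r.2.2.2 i
  rev := fun i =>
    if r.2.2.2 i ≠ .stay ∧ c.last i ≠ .stay ∧ r.2.2.2 i ≠ c.last i then c.rev i + 1
    else c.rev i

theorem step_eq (w : List α) (c : Cfg M) :
    M.step w c = (M.δ c.q w[c.inp]? (fun i => c.tape i (c.pos i))).map (M.nxt c) := rfl

/-- one step, or nothing if the machine has halted -/
def stepT (w : List α) (c : Cfg M) : Cfg M := (M.step w c).getD c

theorem run_zero (w : List α) : M.run w 0 = M.init := rfl

theorem run_succ (w : List α) (t : ℕ) : M.run w (t + 1) = M.stepT w (M.run w t) :=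
  iterate_succ_apply' _ _ _

theorem stepT_none {w : List α} {c : Cfg M} (h : M.step w c = none) : M.stepT w c = c := by
  simp [stepT, h]

theorem stepT_some {w : List α} {c d : Cfg M} (h : M.step w c = some d) : M.stepT w c = d := by
  simp [stepT, h]

variable {M}

theorem HaltedAt.add {w : List α} {t : ℕ} (h : M.HaltedAt w t) (s : ℕ) :
    M.run w (t + s) = M.run w t := by
  induction s with
  | zero => rfl
  | succ s ih => rw [← Nat.add_assoc, run_succ, ih, stepT_none M h]

theorem HaltedAt.run_eq {w : List α} {t t' : ℕ} (h : M.HaltedAt w t) (ht : t ≤ t') :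
    M.run w t' = M.run w t := by
  obtain ⟨s, rfl⟩ := Nat.exists_eq_add_of_le ht
  exact h.add s

theorem HaltedAt.mono {w : List α} {t t' : ℕ} (h : M.HaltedAt w t) (ht : t ≤ t') :
    M.HaltedAt w t' := by
  unfold HaltedAt
  rw [h.run_eq ht]
  exact h

theorem accepts_iff {w : List α} {T : ℕ} (h : M.HaltedAt w T) :
    M.Accepts w ↔ M.acc (M.run w T).q = true := by
  constructor
  · rintro ⟨t, ht, hacc⟩
    rcases le_total t T with h1 | h1
    · rw [ht.run_eq h1]; exact hacc
    · rw [← h.run_eq h1]; exact hacc
  · intro hacc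
    exact ⟨T, h, hacc⟩

/-- the effect of one step on the work tapes -/
theorem stepT_tapes (w : List α) (c : Cfg M) (i : Fin k) : ∃ d : Dir,
    (M.stepT w c).pos i = c.pos i + d.shift ∧
    (M.stepT w c).last i = (if d = .stay then c.last i else d) ∧
    (M.stepT w c).rev i =
      (if d ≠ .stay ∧ c.last i ≠ .stay ∧ d ≠ c.last i then c.rev i + 1 else c.rev i) ∧
    ∀ z, z ≠ c.pos i → (M.stepT w c).tape i z = c.tape i z := by
  cases h : M.δ c.q w[c.inp]? (fun i => c.tape i (c.pos i)) with
  | none =>
    have h1 : M.step w c = none := by simp [step, h]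
    refine ⟨.stay, ?_, ?_, ?_, ?_⟩
    · rw [stepT_none M h1]; simp [Dir.shift]
    · rw [stepT_none M h1]; simp
    · rw [stepT_none M h1]; simp
    · intro z _; rw [stepT_none M h1]
  | some r =>
    refine ⟨r.2.2.2 i, ?_, ?_, ?_, ?_⟩
    · simp [stepT, step, h]
    · simp [stepT, step, h]
    · simp [stepT, step, h]
    · intro z hz
      simp [stepT, step, h, Function.update_of_ne hz]

theorem stepT_inp (w : List α) (c : Cfg M) :
    (M.stepT w c).inp = c.inp ∨ (M.stepT w c).inp = c.inp + 1 := by
  cases h : M.δ c.q w[c.inp]? (fun i => c.tape i (c.pos i)) with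
  | none =>
    have h1 : M.step w c = none := by simp [step, h]
    rw [stepT_none M h1]
    exact Or.inl rfl
  | some r =>
    by_cases hr : r.2.1 = true
    · right; simp [stepT, step, h, hr]
    · left; simp [stepT, step, h, hr]

/-- the step depends only on the state, the scanned symbols and the parts of the tapes -/
theorem stepT_congr {w w' : List α} {c c' : Cfg M} (hq : c.q = c'.q) (hi : c.inp = c'.inp)
    (hw : w[c.inp]? = w'[c.inp]?) (hp : c.pos = c'.pos)
    (ht : ∀ i, c.tape i (c.pos i) = c'.tape i (c.pos i)) :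
    (M.stepT w c).q = (M.stepT w' c').q ∧ (M.stepT w c).inp = (M.stepT w' c').inp ∧
    (M.stepT w c).pos = (M.stepT w' c').pos ∧
    ∀ i, (M.stepT w c).tape i (c.pos i) = (M.stepT w' c').tape i (c.pos i) := by
  have e : (fun i => c.tape i (c.pos i)) = (fun i => c'.tape i (c'.pos i)) := by
    funext i
    rw [ht i, hp]
  have h1 : M.δ c.q w[c.inp]? (fun i => c.tape i (c.pos i)) =
      M.δ c'.q w'[c'.inp]? (fun i => c'.tape i (c'.pos i)) := by
    rw [e, hq, hw, hi]
  cases h : M.δ c'.q w'[c'.inp]? (fun i => c'.tape i (c'.pos i)) with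
  | none =>
    have h2 : M.step w c = none := by simp [step, h1, h]
    have h3 : M.step w' c' = none := by simp [step, h]
    rw [stepT_none M h2, stepT_none M h3]
    exact ⟨hq, hi, hp, ht⟩
  | some r =>
    rw [h] at h1
    have h4 : M.step w c = some (M.nxt c r) := by rw [step_eq, h1]; rfl
    have h5 : M.step w' c' = some (M.nxt c' r) := by rw [step_eq, h]; rfl
    rw [stepT_some M h4, stepT_some M h5]
    refine ⟨rfl, ?_, ?_, ?_⟩
    · simp only [nxt, hi]
    · simp only [nxt, hp]
    · intro i
      simp only [nxt, hp, Function.update_self]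

end Machine

/-- the class with individual reversal bounds -/
def LinRevV (α : Type) (k : ℕ) (b : Fin k → ℕ) : Set (Language α) :=
  {L | ∃ M : Machine α k, M.LinearTime ∧ (∀ (w : List α) (t : ℕ) (i : Fin k),
    (M.run w t).rev i ≤ b i) ∧ ∀ w, w ∈ L ↔ M.Accepts w}

theorem linRevV_mono {α : Type} {k : ℕ} {b b' : Fin k → ℕ} (h : ∀ i, b i ≤ b' i) :
    LinRevV α k b ⊆ LinRevV α k b' := by
  rintro L ⟨M, h1, h2, h3⟩
  exact ⟨M, h1, fun w t i => (h2 w t i).trans (h i), h3⟩

theorem linRev_eq (α : Type) (k m : ℕ) : LinRev α k m = LinRevV α k (fun _ => m) := rfl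

/-! ### adding an idle tape -/

/-- the machine with an additional idle tape -/
def Machine.addTape {α : Type} {k : ℕ} (M : Machine α k) : Machine α (k + 1) where
  Q := M.Q
  Γ := M.Γ
  finQ := M.finQ
  finΓ := M.finΓ
  blank := M.blank
  start := M.start
  acc := M.acc
  δ q a s := (M.δ q a (fun i => s i.castSucc)).map fun r =>
    (r.1, r.2.1, Fin.snoc r.2.2.1 (s (Fin.last k)), Fin.snoc r.2.2.2 .stay)

section

variable {α : Type} {k : ℕ} (M : Machine α k)

/-- the configuration with an additional idle tape -/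
def liftCfg (c : Cfg M) : Cfg M.addTape where
  q := c.q
  inp := c.inp
  pos := Fin.snoc c.pos 0
  tape := Fin.snoc c.tape (fun _ => M.blank)
  last := Fin.snoc c.last .stay
  rev := Fin.snoc c.rev 0

theorem step_liftCfg (w : List α) (c : Cfg M) :
    M.addTape.step w (liftCfg M c) = (M.step w c).map (liftCfg M) := by
  have e : (fun i : Fin k => (liftCfg M c).tape i.castSucc ((liftCfg M c).pos i.castSucc)) =
      fun i => c.tape i (c.pos i) := by
    funext i
    simp [liftCfg]
  cases h : M.δ c.q w[c.inp]? (fun i => c.tape i (c.pos i)) with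
  | none =>
    have h1 : M.step w c = none := by simp [Machine.step, h]
    have h2 : M.addTape.δ (liftCfg M c).q w[(liftCfg M c).inp]?
        (fun i => (liftCfg M c).tape i ((liftCfg M c).pos i)) = none := by
      show (M.δ c.q w[c.inp]? _).map _ = none
      rw [e, h]
      rfl
    rw [h1, Machine.step, h2]
    rfl
  | some r =>
    have h2 : M.addTape.δ (liftCfg M c).q w[(liftCfg M c).inp]?
        (fun i => (liftCfg M c).tape i ((liftCfg M c).pos i)) =
        some (r.1, r.2.1, Fin.snoc r.2.2.1 ((liftCfg M c).tape (Fin.last k)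
          ((liftCfg M c).pos (Fin.last k))), Fin.snoc r.2.2.2 .stay) := by
      show (M.δ c.q w[c.inp]? _).map _ = _
      rw [e, h]
      rfl
    rw [Machine.step_eq, h2, Machine.step_eq, h]
    show some _ = some _
    congr 1
    unfold liftCfg Machine.nxt
    simp only [Cfg.mk.injEq, true_and]
    refine ⟨?_, ?_, ?_, ?_⟩
    · funext i
      refine Fin.lastCases ?_ (fun i => ?_) i <;> simp [Dir.shift]
    · funext i
      refine Fin.lastCases ?_ (fun i => ?_) i
      · funext z
        simp only [Fin.snoc_last]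
        by_cases hz : z = 0
        · subst hz; simp
        · simp [hz]
      · simp only [Fin.snoc_castSucc]
        rfl
    · funext i
      refine Fin.lastCases ?_ (fun i => ?_) i <;> simp
    · funext i
      refine Fin.lastCases ?_ (fun i => ?_) i <;> simp

theorem run_liftCfg (w : List α) (t : ℕ) : M.addTape.run w t = liftCfg M (M.run w t) := by
  induction t with
  | zero =>
    show M.addTape.init = liftCfg M M.init
    unfold Machine.init liftCfg
    simp only [Cfg.mk.injEq, true_and]
    refine ⟨rfl, ?_, ?_, ?_, ?_⟩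
    all_goals
      funext i
      refine Fin.lastCases ?_ (fun i => ?_) i <;> simp [Machine.addTape]
  | succ t ih =>
    rw [Machine.run_succ, ih, Machine.run_succ]
    unfold Machine.stepT
    rw [step_liftCfg]
    cases M.step w (M.run w t) <;> rfl

theorem haltedAt_addTape (w : List α) (t : ℕ) : M.addTape.HaltedAt w t ↔ M.HaltedAt w t := by
  unfold Machine.HaltedAt
  rw [run_liftCfg, step_liftCfg]
  cases M.step w (M.run w t) <;> simp

theorem linRevV_snoc {b : Fin k → ℕ} {L : Language α} (h : L ∈ LinRevV α k b) :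
    L ∈ LinRevV α (k + 1) (Fin.snoc b 0) := by
  obtain ⟨M, ⟨c, hc⟩, h2, h3⟩ := h
  refine ⟨M.addTape, ⟨c, fun w => (haltedAt_addTape M w _).2 (hc w)⟩, ?_, ?_⟩
  · intro w t i
    rw [run_liftCfg]
    refine Fin.lastCases ?_ (fun i => ?_) i
    · simp [liftCfg]
    · simpa [liftCfg] using h2 w t i
  · intro w
    rw [h3 w]
    unfold Machine.Accepts
    simp only [haltedAt_addTape, run_liftCfg]
    rfl

end

theorem linRev_succ_tapes (α : Type) (k m : ℕ) : LinRev α k m ⊆ LinRev α (k + 1) m := by
  intro L hL
  refine linRevV_mono ?_ (linRevV_snoc hL)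
  intro i
  refine Fin.lastCases ?_ (fun i => ?_) i <;> simp

theorem linRev_succ_revs (α : Type) (k m : ℕ) : LinRev α k m ⊆ LinRev α k (m + 1) :=
  linRevV_mono fun _ => Nat.le_succ m

end Pool.Agent.Lib57.RTM
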