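import Mathlib
import Pool.Agent.Lib_helper57.RTM.Basic

/-! The languages `F j` and the machine checking one more block. -/

namespace Pool.Agent.Lib57.RTM

open Function

/-- the input alphabet -/
inductive Sym : Type
  | bit (b : Bool)
  | sep
  | fin

instance : Finite Sym := by
  refine Finite.of_injective (fun s : Sym => match s with
    | .bit b => some (some b)
    | .sep => some none
    | .fin => (none : Option (Option Bool))) ?_
  intro a b h
  cases a <;> cases b <;> simp_all

/-- the block of a word `u` and a word `v` -/
def blk (u v : List Bool) : List Sym := u.map .bit ++ .sep :: (v.map .bit ++ [.fin])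

/-- `F j`: the concatenations of `j` blocks `u # u^R $` -/
def F : ℕ → Language Sym
  | 0 => {[]}
  | j + 1 => {w | ∃ (u : List Bool) (z : List Sym), z ∈ F j ∧ w = blk u u.reverse ++ z}

/-- direction flag after a move -/
def flag : Option Bool → Dir → Option Bool
  | some x, _ => some x
  | none, .stay => none
  | none, .left => some false
  | none, .right => some true

/-- mirrored move -/
def mir : Option Bool → Dir → Dir
  | some true, .left => .right
  | some true, .right => .left
  | _, d => d

variable {k : ℕ}

/-- the transition function of the new machine -/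
def checkδ (M : Machine Sym k) (c0 : Fin k) : Option (Option (Option Bool × M.Q)) → Option Sym →
    (Fin k → M.Γ ⊕ Bool) → Option (Option (Option (Option Bool × M.Q)) × Bool ×
      (Fin k → M.Γ ⊕ Bool) × (Fin k → Dir))
  | none, some (.bit b), s =>
    some (none, true, update s c0 (.inr b), update (fun _ => .stay) c0 .right)
  | none, some .sep, s => some (some none, true, s, update (fun _ => .stay) c0 .left)
  | none, some .fin, _ => none
  | none, none, _ => none
  | some none, some (.bit b), s =>
    match s c0 with
    | .inr b' => if b' = b then some (some none, true, update s c0 (.inl M.blank),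
        update (fun _ => .stay) c0 .left) else none
    | .inl _ => none
  | some none, some .fin, s =>
    match s c0 with
    | .inl _ => some (some (some (none, M.start)), true, s, fun _ => .stay)
    | .inr _ => none
  | some none, some .sep, _ => none
  | some none, none, _ => none
  | some (some (f, q)), a, s =>
    (M.δ q a (fun i => (s i).elim id (fun _ => M.blank))).map fun r =>
      (some (some (flag f (r.2.2.2 c0), r.1)), r.2.1, fun i => .inl (r.2.2.1 i),
        fun i => if i = c0 then mir (flag f (r.2.2.2 c0)) (r.2.2.2 c0) else r.2.2.2 i)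

/-- the machine checking one block on the tape `c0` and then simulating `M` -/
def Machine.check (M : Machine Sym k) (c0 : Fin k) : Machine Sym k where
  Q := Option (Option (Option Bool × M.Q))
  Γ := M.Γ ⊕ Bool
  finQ := by
    have := M.finQ
    infer_instance
  finΓ := by
    have := M.finΓ
    infer_instance
  blank := .inl M.blank
  start := none
  acc p := match p with
    | some (some (_, q)) => M.acc q
    | _ => false
  δ := checkδ M c0

variable (M : Machine Sym k) (c0 : Fin k)

/-- tape with the word `u` on the cells `0, 1, ...` -/
def tp (u : List Bool) (z : ℤ) : M.Γ ⊕ Bool :=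
  if 0 ≤ z then (match u[z.toNat]? with
    | some b => .inr b
    | none => .inl M.blank) else .inl M.blank

theorem tp_nil : tp M [] = fun _ => .inl M.blank := by
  funext z
  simp [tp]

theorem tp_len (u : List Bool) : tp M u u.length = .inl M.blank := by
  simp [tp]

theorem tp_neg (u : List Bool) : tp M u (-1) = .inl M.blank := by
  simp [tp]

theorem tp_snoc (u : List Bool) (b : Bool) :
    update (tp M u) u.length (.inr b) = tp M (u ++ [b]) := by
  funext z
  by_cases hz : z = u.length
  · subst hz
    simp [tp]
  · rw [update_of_ne hz]
    unfold tp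
    by_cases h0 : 0 ≤ z
    · rw [if_pos h0, if_pos h0]
      have : z.toNat ≠ u.length := by omega
      rcases Nat.lt_or_ge z.toNat u.length with h1 | h1
      · rw [List.getElem?_append_left h1]
      · rw [List.getElem?_eq_none h1, List.getElem?_eq_none (by simp; omega)]
    · rw [if_neg h0, if_neg h0]

theorem tp_last (u : List Bool) (b : Bool) : tp M (u ++ [b]) u.length = .inr b := by
  simp [tp]

theorem tp_erase (u : List Bool) (b : Bool) :
    update (tp M (u ++ [b])) u.length (.inl M.blank) = tp M u := by
  rw [← tp_snoc, update_idem]
  funext z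
  by_cases hz : z = u.length
  · subst hz
    rw [update_self, tp_len]
  · rw [update_of_ne hz]

/-- configuration while reading the first word -/
def Crd (u : List Bool) : Cfg (M.check c0) where
  q := (none : Option (Option (Option Bool × M.Q)))
  inp := u.length
  pos := fun i => if i = c0 then u.length else 0
  tape := fun i => if i = c0 then tp M u else fun _ => .inl M.blank
  last := fun i => if i = c0 then (if u = [] then .stay else .right) else .stay
  rev := fun _ => 0

/-- configuration while comparing -/
def Ccmp (v : List Bool) (n r : ℕ) : Cfg (M.check c0) where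
  q := (some none : Option (Option (Option Bool × M.Q)))
  inp := n
  pos := fun i => if i = c0 then v.length - 1 else 0
  tape := fun i => if i = c0 then tp M v else fun _ => .inl M.blank
  last := fun i => if i = c0 then .left else .stay
  rev := fun i => if i = c0 then r else 0

/-- start of the simulation -/
def Csim (n r : ℕ) : Cfg (M.check c0) where
  q := (some (some (none, M.start)) : Option (Option (Option Bool × M.Q)))
  inp := n
  pos := fun i => if i = c0 then -1 else 0
  tape := fun _ _ => .inl M.blank
  last := fun i => if i = c0 then .left else .stay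
  rev := fun i => if i = c0 then r else 0

theorem stepT_of_δ {α : Type} {k : ℕ} {M : Machine α k} {w : List α} {c : Cfg M}
    {r : M.Q × Bool × (Fin k → M.Γ) × (Fin k → Dir)}
    (h : M.δ c.q w[c.inp]? (fun i => c.tape i (c.pos i)) = some r) :
    M.stepT w c = M.nxt c r := by
  apply Machine.stepT_some
  rw [Machine.step_eq, h]
  rfl

theorem cmpδ_bit (s : Fin k → M.Γ ⊕ Bool) (b : Bool) (h : s c0 = .inr b) :
    checkδ M c0 (some none) (some (.bit b)) s = some (some none, true,
      update s c0 (.inl M.blank), update (fun _ => .stay) c0 .left) := by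
  simp [checkδ, h]

theorem cmpδ_bit_ne (s : Fin k → M.Γ ⊕ Bool) (b b' : Bool) (h : s c0 = .inr b') (hb : b' ≠ b) :
    checkδ M c0 (some none) (some (.bit b)) s = none := by
  simp [checkδ, h, hb]

theorem cmpδ_bit_blank (s : Fin k → M.Γ ⊕ Bool) (b : Bool) (g : M.Γ) (h : s c0 = .inl g) :
    checkδ M c0 (some none) (some (.bit b)) s = none := by
  simp [checkδ, h]

theorem cmpδ_fin (s : Fin k → M.Γ ⊕ Bool) (g : M.Γ) (h : s c0 = .inl g) :
    checkδ M c0 (some none) (some .fin) s = some (some (some (none, M.start)), true, s,
      fun _ => .stay) := by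
  simp [checkδ, h]

theorem cmpδ_fin_ne (s : Fin k → M.Γ ⊕ Bool) (b : Bool) (h : s c0 = .inr b) :
    checkδ M c0 (some none) (some .fin) s = none := by
  simp [checkδ, h]

theorem init_eq : (M.check c0).init = Crd M c0 [] := by
  unfold Machine.init Crd
  simp only [Cfg.mk.injEq]
  refine ⟨rfl, by simp, ?_, ?_, ?_, trivial⟩
  · funext i; simp
  · funext i
    rw [tp_nil]
    by_cases hi : i = c0 <;> simp [hi, Machine.check]
  · funext i; simp

theorem step_rd_bit {w : List Sym} (u : List Bool) (b : Bool)
    (hw : w[u.length]? = some (.bit b)) :
    (M.check c0).stepT w (Crd M c0 u) = Crd M c0 (u ++ [b]) := by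
  have e : (M.check c0).δ (Crd M c0 u).q w[(Crd M c0 u).inp]?
      (fun i => (Crd M c0 u).tape i ((Crd M c0 u).pos i)) =
      some (none, true, update (fun i => (Crd M c0 u).tape i ((Crd M c0 u).pos i)) c0 (.inr b),
        update (fun _ => .stay) c0 .right) := by
    show checkδ M c0 none w[u.length]? _ = _
    rw [hw]
    rfl
  rw [stepT_of_δ e]
  unfold Crd Machine.nxt
  simp only [Cfg.mk.injEq, true_and]
  refine ⟨by simp, ?_, ?_, ?_, ?_⟩
  · funext i
    by_cases hi : i = c0
    · subst hi; simp [Dir.shift]
    · simp [hi, Dir.shift]
  · funext i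
    by_cases hi : i = c0
    · subst hi
      simp only [if_true, update_self]
      exact tp_snoc M u b
    · simp only [hi, if_false, update_of_ne (Ne.symm (Ne.symm hi) : i ≠ c0)]
      exact update_eq_self 0 _
  · funext i
    by_cases hi : i = c0
    · subst hi; simp
    · simp [hi]
  · funext i
    by_cases hi : i = c0
    · subst hi
      by_cases hu : u = [] <;> simp [hu]
    · simp [hi]

theorem step_rd_sep {w : List Sym} (u : List Bool) (hw : w[u.length]? = some .sep) :
    (M.check c0).stepT w (Crd M c0 u) =
      Ccmp M c0 u (u.length + 1) (if u = [] then 0 else 1) := by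
  have e : (M.check c0).δ (Crd M c0 u).q w[(Crd M c0 u).inp]?
      (fun i => (Crd M c0 u).tape i ((Crd M c0 u).pos i)) =
      some (some none, true, (fun i => (Crd M c0 u).tape i ((Crd M c0 u).pos i)),
        update (fun _ => .stay) c0 .left) := by
    show checkδ M c0 none w[u.length]? _ = _
    rw [hw]
    rfl
  rw [stepT_of_δ e]
  unfold Crd Ccmp Machine.nxt
  simp only [Cfg.mk.injEq, true_and]
  refine ⟨by simp, ?_, ?_, ?_, ?_⟩
  · funext i
    by_cases hi : i = c0
    · subst hi; simp [Dir.shift]; ring
    · simp [hi, Dir.shift]
  · funext i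
    exact update_eq_self _ _
  · funext i
    by_cases hi : i = c0
    · subst hi; simp
    · simp [hi]
  · funext i
    by_cases hi : i = c0
    · subst hi
      by_cases hu : u = [] <;> simp [hu]
    · simp [hi]

theorem step_cmp_bit {w : List Sym} (v : List Bool) (b : Bool) (n r : ℕ)
    (hw : w[n]? = some (.bit b)) :
    (M.check c0).stepT w (Ccmp M c0 (v ++ [b]) n r) = Ccmp M c0 v (n + 1) r := by
  have e : (M.check c0).δ (Ccmp M c0 (v ++ [b]) n r).q w[(Ccmp M c0 (v ++ [b]) n r).inp]?
      (fun i => (Ccmp M c0 (v ++ [b]) n r).tape i ((Ccmp M c0 (v ++ [b]) n r).pos i)) =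
      some (some none, true, update (fun i => (Ccmp M c0 (v ++ [b]) n r).tape i
        ((Ccmp M c0 (v ++ [b]) n r).pos i)) c0 (.inl M.blank),
        update (fun _ => .stay) c0 .left) := by
    show checkδ M c0 (some none) w[n]? _ = _
    rw [hw]
    apply cmpδ_bit
    simp [Ccmp, tp_last]
  rw [stepT_of_δ e]
  unfold Ccmp Machine.nxt
  simp only [Cfg.mk.injEq, true_and]
  refine ⟨by simp, ?_, ?_, ?_, ?_⟩
  · funext i
    by_cases hi : i = c0
    · subst hi; simp [Dir.shift]; ring
    · simp [hi, Dir.shift]
  · funext i
    by_cases hi : i = c0
    · subst hi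
      simp only [if_true, update_self, List.length_append, List.length_singleton,
        Nat.cast_add, Nat.cast_one, add_sub_cancel_right]
      exact tp_erase M v b
    · simp only [hi, if_false, update_of_ne (Ne.symm (Ne.symm hi) : i ≠ c0)]
      exact update_eq_self 0 _
  · funext i
    by_cases hi : i = c0
    · subst hi; simp
    · simp [hi]
  · funext i
    by_cases hi : i = c0
    · subst hi; simp
    · simp [hi]

theorem step_cmp_fin {w : List Sym} (n r : ℕ) (hw : w[n]? = some .fin) :
    (M.check c0).stepT w (Ccmp M c0 [] n r) = Csim M c0 (n + 1) r := by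
  have e : (M.check c0).δ (Ccmp M c0 [] n r).q w[(Ccmp M c0 [] n r).inp]?
      (fun i => (Ccmp M c0 [] n r).tape i ((Ccmp M c0 [] n r).pos i)) =
      some (some (some (none, M.start)), true, (fun i => (Ccmp M c0 [] n r).tape i
        ((Ccmp M c0 [] n r).pos i)), fun _ => .stay) := by
    show checkδ M c0 (some none) w[n]? _ = _
    rw [hw]
    apply cmpδ_fin M c0 _ M.blank
    simp [Ccmp, tp_nil]
  rw [stepT_of_δ e]
  unfold Ccmp Csim Machine.nxt
  simp only [Cfg.mk.injEq, true_and]
  refine ⟨by simp, ?_, ?_, ?_, ?_⟩
  · funext i
    by_cases hi : i = c0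
    · subst hi; simp [Dir.shift]
    · simp [hi, Dir.shift]
  · funext i
    rw [tp_nil]
    by_cases hi : i = c0 <;> simp [hi]
  · funext i
    simp
  · funext i
    by_cases hi : i = c0
    · subst hi; simp
    · simp [hi]

theorem halt_rd {w : List Sym} (u : List Bool)
    (hw : w[u.length]? = none ∨ w[u.length]? = some .fin) :
    (M.check c0).step w (Crd M c0 u) = none := by
  have e : (M.check c0).δ (Crd M c0 u).q w[(Crd M c0 u).inp]?
      (fun i => (Crd M c0 u).tape i ((Crd M c0 u).pos i)) = none := by
    show checkδ M c0 none w[u.length]? _ = _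
    rcases hw with hw | hw <;> rw [hw] <;> rfl
  rw [Machine.step_eq, e]; rfl

theorem halt_cmp {w : List Sym} (v : List Bool) (n r : ℕ)
    (hw : w[n]? = none ∨ w[n]? = some .sep ∨ (w[n]? = some .fin ∧ v ≠ []) ∨
      (∃ b, w[n]? = some (.bit b) ∧ v.getLast? ≠ some b)) :
    (M.check c0).step w (Ccmp M c0 v n r) = none := by
  have e : (M.check c0).δ (Ccmp M c0 v n r).q w[(Ccmp M c0 v n r).inp]?
      (fun i => (Ccmp M c0 v n r).tape i ((Ccmp M c0 v n r).pos i)) = none := by
    show checkδ M c0 (some none) w[n]? _ = _
    rcases hw with hw | hw | ⟨hw, hv⟩ | ⟨b, hw, hv⟩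
    · rw [hw]; rfl
    · rw [hw]; rfl
    · rw [hw]
      obtain ⟨v', b', rfl⟩ : ∃ v' b', v = v' ++ [b'] :=
        ⟨v.dropLast, v.getLast hv, (List.dropLast_append_getLast hv).symm⟩
      apply cmpδ_fin_ne M c0 _ b'
      simp [Ccmp, tp_last]
    · rw [hw]
      rcases List.eq_nil_or_concat v with rfl | ⟨v', b', rfl⟩
      · apply cmpδ_bit_blank M c0 _ b M.blank
        simp [Ccmp, tp_nil]
      · have h2 : b' ≠ b := by
          intro h
          apply hv
          simp [h]
        apply cmpδ_bit_ne M c0 _ b b' _ h2
        simp [Ccmp, tp_last]
  rw [Machine.step_eq, e]; rfl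

theorem run_rd (u : List Bool) (rest : List Sym) :
    (M.check c0).run (u.map .bit ++ rest) u.length = Crd M c0 u := by
  induction u using List.reverseRecOn generalizing rest with
  | nil => exact init_eq M c0
  | append_singleton u b ih =>
    have h1 := ih (.bit b :: rest)
    have e : (u ++ [b]).map Sym.bit ++ rest = u.map .bit ++ (.bit b :: rest) := by simp
    rw [e, List.length_append, List.length_singleton, Machine.run_succ, h1]
    apply step_rd_bit
    simp

theorem run_cmp (v v' : List Bool) (rest : List Sym) :
    (M.check c0).run ((v ++ v'.reverse).map .bit ++ .sep :: (v'.map .bit ++ rest))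
      (v.length + v'.length + 1 + v'.length) =
    Ccmp M c0 v (v.length + v'.length + 1 + v'.length) (if v ++ v'.reverse = [] then 0 else 1) := by
  induction v' using List.reverseRecOn generalizing v rest with
  | nil =>
    simp only [List.reverse_nil, List.append_nil, List.length_nil, Nat.add_zero, List.map_nil,
      List.nil_append]
    rw [Machine.run_succ, run_rd]
    apply step_rd_sep
    simp
  | append_singleton v' b ih =>
    have h1 := ih (v ++ [b]) (.bit b :: rest)
    have e1 : (v ++ [b]) ++ v'.reverse = v ++ (v' ++ [b]).reverse := by simp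
    have e2 : v'.map Sym.bit ++ (.bit b :: rest) = (v' ++ [b]).map .bit ++ rest := by simp
    rw [e1, e2] at h1
    have e3 : (v ++ [b]).length + v'.length + 1 + v'.length + 1 =
        v.length + (v' ++ [b]).length + 1 + (v' ++ [b]).length := by
      simp only [List.length_append, List.length_singleton]
      omega
    rw [← e3, Machine.run_succ, h1]
    apply step_cmp_bit
    have e4 : (v ++ [b]).length + v'.length + 1 + v'.length =
        ((v ++ (v' ++ [b]).reverse).map Sym.bit).length + (1 + v'.length) := by
      simp only [List.length_append, List.length_singleton, List.length_map, List.length_reverse]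
      omega
    rw [e4, List.getElem?_append_right (by omega), Nat.add_sub_cancel_left]
    simp [Nat.add_comm 1]

theorem blk_length (u v : List Bool) : (blk u v).length = u.length + v.length + 2 := by
  simp [blk]
  omega

theorem run_sim0 (u : List Bool) (z : List Sym) :
    (M.check c0).run (blk u u.reverse ++ z) (2 * u.length + 2) =
      Csim M c0 (2 * u.length + 2) (if u = [] then 0 else 1) := by
  have h1 := run_cmp M c0 [] u.reverse (.fin :: z)
  simp only [List.nil_append, List.reverse_reverse, List.length_nil, Nat.zero_add,
    List.length_reverse] at h1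
  have e : u.map Sym.bit ++ .sep :: (u.reverse.map .bit ++ (.fin :: z)) =
      blk u u.reverse ++ z := by
    simp [blk]
  rw [e] at h1
  have e2 : 2 * u.length + 2 = (u.length + 1 + u.length) + 1 := by omega
  rw [e2, Machine.run_succ, h1]
  apply step_cmp_fin
  rw [← e]
  rw [List.getElem?_append_right (by rw [List.length_map]; omega)]
  have e3 : u.length + 1 + u.length - (u.map Sym.bit).length = u.length + 1 := by
    rw [List.length_map]; omega
  rw [e3, List.getElem?_cons_succ, List.getElem?_append_right (by simp)]
  simp

end Pool.Agent.Lib57.RTM
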