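import Mathlib
import Pool.Agent.Lib_helper57.RTM.Build

/-! The machine checking one block: classification of the inputs, simulation. -/

namespace Pool.Agent.Lib57.RTM

open Function

theorem rev_mono_step {α : Type} {k : ℕ} (M : Machine α k) (w : List α) (c : Cfg M) (i : Fin k) :
    c.rev i ≤ (M.stepT w c).rev i := by
  obtain ⟨d, _, _, h, _⟩ := Machine.stepT_tapes (M := M) w c i
  rw [h]
  split_ifs <;> omega

theorem rev_mono {α : Type} {k : ℕ} (M : Machine α k) (w : List α) {t t' : ℕ} (h : t ≤ t')
    (i : Fin k) : (M.run w t).rev i ≤ (M.run w t').rev i := by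
  induction t', h using Nat.le_induction with
  | base => exact le_rfl
  | succ n _ ih =>
    rw [Machine.run_succ]
    exact ih.trans (rev_mono_step M w _ i)

/-! ### unique parsing -/

theorem parse_sep {u u' : List Bool} {x x' : List Sym}
    (h : u.map Sym.bit ++ .sep :: x = u'.map Sym.bit ++ .sep :: x') : u = u' ∧ x = x' := by
  induction u generalizing u' with
  | nil =>
    cases u' with
    | nil => simpa using h
    | cons b u' => simp at h
  | cons b u ih =>
    cases u' with
    | nil => simp at h
    | cons b' u' =>
      simp only [List.map_cons, List.cons_append, List.cons.injEq, Sym.bit.injEq] at h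
      obtain ⟨h1, h2⟩ := ih h.2
      exact ⟨by rw [h.1, h1], h2⟩

theorem parse_fin {u u' : List Bool} {x x' : List Sym}
    (h : u.map Sym.bit ++ .fin :: x = u'.map Sym.bit ++ .fin :: x') : u = u' ∧ x = x' := by
  induction u generalizing u' with
  | nil =>
    cases u' with
    | nil => simpa using h
    | cons b u' => simp at h
  | cons b u ih =>
    cases u' with
    | nil => simp at h
    | cons b' u' =>
      simp only [List.map_cons, List.cons_append, List.cons.injEq, Sym.bit.injEq] at h
      obtain ⟨h1, h2⟩ := ih h.2
      exact ⟨by rw [h.1, h1], h2⟩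

theorem parse_blk {u v u' v' : List Bool} {z z' : List Sym}
    (h : blk u v ++ z = blk u' v' ++ z') : u = u' ∧ v = v' ∧ z = z' := by
  have h1 : u.map Sym.bit ++ .sep :: (v.map Sym.bit ++ .fin :: z) =
      u'.map Sym.bit ++ .sep :: (v'.map Sym.bit ++ .fin :: z') := by
    simpa [blk] using h
  obtain ⟨h2, h3⟩ := parse_sep h1
  obtain ⟨h4, h5⟩ := parse_fin h3
  exact ⟨h2, h4, h5⟩

/-! ### classification of the inputs -/

theorem classify_cmp (u : List Bool) (rest : List Sym) :
    ∃ (v v' : List Bool) (rest' : List Sym), u = v ++ v'.reverse ∧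
      rest = v'.map .bit ++ rest' ∧ ((v = [] ∧ ∃ z, rest' = .fin :: z) ∨
      (rest'[0]? = none ∨ rest'[0]? = some .sep ∨ (rest'[0]? = some .fin ∧ v ≠ []) ∨
      (∃ b, rest'[0]? = some (.bit b) ∧ v.getLast? ≠ some b))) := by
  induction u using List.reverseRecOn generalizing rest with
  | nil =>
    refine ⟨[], [], rest, rfl, rfl, ?_⟩
    cases rest with
    | nil => right; left; rfl
    | cons a r =>
      cases a with
      | bit b => right; right; right; right; exact ⟨b, rfl, by simp⟩
      | sep => right; right; left; rfl
      | fin => left; exact ⟨rfl, r, rfl⟩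
  | append_singleton u b ih =>
    cases rest with
    | nil => exact ⟨u ++ [b], [], [], by simp, rfl, Or.inr (Or.inl rfl)⟩
    | cons a r =>
      cases a with
      | bit b' =>
        by_cases hb : b' = b
        · subst hb
          obtain ⟨v, v', rest', h1, h2, h3⟩ := ih r
          exact ⟨v, b' :: v', rest', by simp [h1], by simp [h2], h3⟩
        · refine ⟨u ++ [b], [], .bit b' :: r, by simp, rfl, ?_⟩
          right; right; right; right
          refine ⟨b', rfl, ?_⟩
          simp [Ne.symm hb]
      | sep => exact ⟨u ++ [b], [], .sep :: r, by simp, rfl, Or.inr (Or.inr (Or.inl rfl))⟩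
      | fin =>
        exact ⟨u ++ [b], [], .fin :: r, by simp, rfl,
          Or.inr (Or.inr (Or.inr (Or.inl ⟨rfl, by simp⟩)))⟩

theorem classify_rd (w : List Sym) : ∃ (u : List Bool) (rest : List Sym),
    w = u.map .bit ++ rest ∧ ((∃ r, rest = .sep :: r) ∨
      (rest[0]? = none ∨ rest[0]? = some .fin)) := by
  induction w with
  | nil => exact ⟨[], [], rfl, Or.inr (Or.inl rfl)⟩
  | cons a w ih =>
    cases a with
    | bit b =>
      obtain ⟨u, rest, h1, h2⟩ := ih
      exact ⟨b :: u, rest, by simp [h1], h2⟩
    | sep => exact ⟨[], .sep :: w, rfl, Or.inl ⟨w, rfl⟩⟩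
    | fin => exact ⟨[], .fin :: w, rfl, Or.inr (Or.inr rfl)⟩

variable {k : ℕ} (M : Machine Sym k) (c0 : Fin k)

/-- either the input starts with a good block, or the machine halts early and rejects -/
theorem classify (w : List Sym) (hw : ¬ ∃ u z, w = blk u u.reverse ++ z) :
    ∃ t, t ≤ w.length ∧ (M.check c0).HaltedAt w t ∧
      (M.check c0).acc ((M.check c0).run w t).q = false ∧
      ∀ i, ((M.check c0).run w t).rev i ≤ if i = c0 then 1 else 0 := by
  obtain ⟨u, rest, h1, h2⟩ := classify_rd w
  rcases h2 with ⟨r, hr⟩ | h2
  · obtain ⟨v, v', rest', h3, h4, h5⟩ := classify_cmp u r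
    rcases h5 with ⟨hv, z, hz⟩ | h5
    · exfalso
      apply hw
      refine ⟨u, z, ?_⟩
      subst hv
      rw [h1, hr, h4, hz, h3]
      simp [blk]
    · have hrun := run_cmp M c0 v v' rest'
      rw [← h3, ← h4, ← hr, ← h1] at hrun
      have hlen : w.length = v.length + v'.length + 1 + v'.length + rest'.length := by
        rw [h1, hr, h4, h3]
        simp
        omega
      refine ⟨v.length + v'.length + 1 + v'.length, by omega, ?_, ?_, ?_⟩
      · unfold Machine.HaltedAt
        rw [hrun]
        apply halt_cmp
        have e : w[v.length + v'.length + 1 + v'.length]? = rest'[0]? := by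
          rw [h1, hr, h4, List.getElem?_append_right (by rw [h3]; simp; omega)]
          have e3 : v.length + v'.length + 1 + v'.length - (u.map Sym.bit).length =
              v'.length + 1 := by
            rw [h3]; simp; omega
          rw [e3, List.getElem?_cons_succ, List.getElem?_append_right (by simp)]
          simp
        rw [e]
        exact h5
      · rw [hrun]
        rfl
      · intro i
        rw [hrun]
        show (if i = c0 then _ else 0) ≤ _
        split_ifs <;> omega
  · have hrun := run_rd M c0 u rest
    rw [← h1] at hrun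
    refine ⟨u.length, by rw [h1]; simp, ?_, ?_, ?_⟩
    · unfold Machine.HaltedAt
      rw [hrun]
      apply halt_rd
      have e : w[u.length]? = rest[0]? := by
        rw [h1, List.getElem?_append_right (by simp)]
        simp
      rw [e]
      exact h2
    · rw [hrun]
      rfl
    · intro i
      rw [hrun]
      show 0 ≤ _
      exact Nat.zero_le _

/-! ### simulation -/

/-- the sign -/
def sg : Option Bool → ℤ
  | some true => -1
  | _ => 1

theorem sg_cases (f : Option Bool) : sg f = 1 ∨ sg f = -1 := by
  rcases f with _ | _ | _ <;> simp [sg]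

theorem mir_shift (f : Option Bool) (d : Dir) : (mir f d).shift = sg f * d.shift := by
  rcases f with _ | _ | _ <;> cases d <;> simp [mir, sg, Dir.shift]

theorem mir_stay (f : Option Bool) (d : Dir) : mir f d = .stay ↔ d = .stay := by
  rcases f with _ | _ | _ <;> cases d <;> simp [mir]

theorem mir_inj (f : Option Bool) (d d' : Dir) : mir f d = mir f d' ↔ d = d' := by
  rcases f with _ | _ | _ <;> cases d <;> cases d' <;> simp [mir]

/-- the simulation relation -/
structure Sim (off : ℕ) (f : Option Bool) (c' : Cfg (M.check c0)) (c : Cfg M) : Prop where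
  hq : c'.q = some (some (f, c.q))
  hinp : c'.inp = off + c.inp
  hpos : ∀ i, i ≠ c0 → c'.pos i = c.pos i
  htape : ∀ i, i ≠ c0 → ∀ x, c'.tape i x = .inl (c.tape i x)
  hlast : ∀ i, i ≠ c0 → c'.last i = c.last i
  hrev : ∀ i, i ≠ c0 → c'.rev i = c.rev i
  h0pos : c'.pos c0 = -1 + sg f * c.pos c0
  h0tape : ∀ x, c'.tape c0 x = .inl (c.tape c0 (sg f * (x + 1)))
  h0rev : c'.rev c0 ≤ c.rev c0 + 1
  hnone : f = none → c.pos c0 = 0 ∧ (∀ z, z ≠ 0 → c.tape c0 z = M.blank) ∧
    c.last c0 = .stay ∧ c'.last c0 = .left
  hsome : f ≠ none → c.last c0 ≠ .stay ∧ c'.last c0 = mir f (c.last c0)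

theorem flag_or (f : Option Bool) (d : Dir) :
    (flag f d = f ∧ (f = none → d = .stay)) ∨ (f = none ∧ d ≠ .stay ∧ flag f d ≠ none ∧
      mir (flag f d) d = .left) := by
  rcases f with _ | _ | _ <;> cases d <;> simp [flag, mir]

variable {M c0}

theorem Sim.step {w z : List Sym} {off : ℕ} (hw : ∀ n, w[off + n]? = z[n]?) {f : Option Bool}
    {c' : Cfg (M.check c0)} {c : Cfg M} (h : Sim M c0 off f c' c) :
    (M.step z c = none ∧ (M.check c0).step w c' = none) ∨
    (∃ d d' f', M.step z c = some d ∧ (M.check c0).step w c' = some d' ∧
      Sim M c0 off f' d' d) := by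
  have e : (fun i => (c'.tape i (c'.pos i)).elim id (fun _ => M.blank)) =
      fun i => c.tape i (c.pos i) := by
    funext i
    by_cases hi : i = c0
    · subst hi
      rw [h.h0tape, h.h0pos]
      have : sg f * (-1 + sg f * c.pos i + 1) = c.pos i := by
        rcases sg_cases f with h1 | h1 <;> rw [h1] <;> ring
      rw [this]
      rfl
    · rw [h.htape i hi, h.hpos i hi]
      rfl
  have e1 : (M.check c0).δ c'.q w[c'.inp]? (fun i => c'.tape i (c'.pos i)) =
      (M.δ c.q z[c.inp]? (fun i => c.tape i (c.pos i))).map fun r =>
      (some (some (flag f (r.2.2.2 c0), r.1)), r.2.1, fun i => .inl (r.2.2.1 i),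
        fun i => if i = c0 then mir (flag f (r.2.2.2 c0)) (r.2.2.2 c0) else r.2.2.2 i) := by
    rw [h.hq, h.hinp, hw]
    show (M.δ c.q z[c.inp]? (fun i => (c'.tape i (c'.pos i)).elim id (fun _ => M.blank))).map _ = _
    rw [e]
    rfl
  cases hδ : M.δ c.q z[c.inp]? (fun i => c.tape i (c.pos i)) with
  | none =>
    left
    rw [hδ] at e1
    constructor
    · rw [Machine.step_eq, hδ]; rfl
    · rw [Machine.step_eq, e1]; rfl
  | some r =>
    right
    rw [hδ] at e1
    refine ⟨M.nxt c r, (M.check c0).nxt c' (some (some (flag f (r.2.2.2 c0), r.1)), r.2.1,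
      fun i => .inl (r.2.2.1 i), fun i => if i = c0 then mir (flag f (r.2.2.2 c0)) (r.2.2.2 c0)
      else r.2.2.2 i), flag f (r.2.2.2 c0), ?_, ?_, ?_⟩
    · rw [Machine.step_eq, hδ]; rfl
    · rw [Machine.step_eq, e1]; rfl
    · have hf := flag_or f (r.2.2.2 c0)
      generalize hd : r.2.2.2 c0 = d at hf
      generalize hf' : flag f d = f' at hf
      constructor
      · rfl
      · simp only [Machine.nxt, h.hinp, Nat.add_assoc]
      · intro i hi
        simp only [Machine.nxt, h.hpos i hi, if_neg hi]
      · intro i hi x
        simp only [Machine.nxt, h.hpos i hi]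
        by_cases hx : x = c.pos i
        · subst hx
          rw [update_self, update_self]
        · rw [update_of_ne hx, update_of_ne hx]
          exact h.htape i hi x
      · intro i hi
        simp only [Machine.nxt, h.hlast i hi, if_neg hi]
      · intro i hi
        simp only [Machine.nxt, h.hlast i hi, if_neg hi, h.hrev i hi]
      · simp only [Machine.nxt, if_true, h.h0pos, mir_shift, hd]
        rcases hf with ⟨h1, _⟩ | ⟨h1, _⟩
        · rw [h1]; ring
        · rw [(h.hnone h1).1]; ring
      · intro x
        simp only [Machine.nxt]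
        by_cases hx : x = c'.pos c0
        · have h2 : sg f' * (x + 1) = c.pos c0 := by
            rcases hf with ⟨h1, _⟩ | ⟨h1, _⟩
            · rw [h1, hx, h.h0pos]
              rcases sg_cases f with h3 | h3 <;> rw [h3] <;> ring
            · rw [hx, h.h0pos, (h.hnone h1).1]; ring
          rw [h2, hx, update_self, update_self]
        · have h2 : sg f' * (x + 1) ≠ c.pos c0 := by
            intro h4
            apply hx
            rw [h.h0pos]
            rcases hf with ⟨h1, _⟩ | ⟨h1, _⟩
            · rw [h1] at h4
              rw [← h4]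
              rcases sg_cases f with h3 | h3 <;> rw [h3] <;> ring
            · rw [(h.hnone h1).1] at h4 ⊢
              rcases sg_cases f' with h3 | h3 <;> rw [h3] at h4 <;> omega
          rw [update_of_ne hx, update_of_ne h2, h.h0tape]
          rcases hf with ⟨h1, _⟩ | ⟨h1, _⟩
          · rw [h1]
          · have h5 : c.pos c0 = 0 := (h.hnone h1).1
            have h6 : x + 1 ≠ 0 := by
              intro h7
              rw [h7, h5] at h2
              simp at h2
            have h7 := (h.hnone h1).2.1
            rw [h7, h7]
            · rw [← h5]; exact h2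
            · rw [h1]; simpa [sg] using h6
      · simp only [Machine.nxt, if_true, hd]
        have h0 := h.h0rev
        rcases hf with ⟨h1, h2⟩ | ⟨h1, h2, h3, h4⟩
        · by_cases hn : f = none
          · have h3 := h2 hn
            rw [h3]
            have h4 : mir f' Dir.stay = .stay := (mir_stay _ _).2 rfl
            rw [h4]
            simpa using h0
          · obtain ⟨h3, h4⟩ := h.hsome hn
            rw [h1, h4]
            by_cases h5 : d ≠ .stay ∧ c.last c0 ≠ .stay ∧ d ≠ c.last c0
            · rw [if_pos h5]
              split_ifs <;> omega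
            · rw [if_neg h5, if_neg]
              · exact h0
              · rintro ⟨h6, h7, h8⟩
                apply h5
                rw [Ne, mir_stay] at h6 h7
                rw [Ne, mir_inj] at h8
                exact ⟨h6, h7, h8⟩
        · obtain ⟨h5, h6, h7, h8⟩ := h.hnone h1
          rw [h4, h8, h7]
          simpa using h0
      · intro hn
        rw [hn] at hf
        rcases hf with ⟨h1, h2⟩ | ⟨h1, h2, h3, h4⟩
        · obtain ⟨h5, h6, h7, h8⟩ := h.hnone h1.symm
          have h9 := h2 h1.symm
          simp only [Machine.nxt, if_true, hd, h9]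
          refine ⟨by simp [h5, Dir.shift], ?_, by simp [h7], by simp [h8, mir_stay]⟩
          intro z hz
          rw [update_of_ne (by rw [h5]; exact hz)]
          exact h6 z hz
        · exact absurd rfl h3
      · intro hn
        simp only [Machine.nxt, if_true, hd]
        rcases hf with ⟨h1, h2⟩ | ⟨h1, h2, h3, h4⟩
        · rw [h1] at hn
          obtain ⟨h5, h6⟩ := h.hsome hn
          by_cases hs : d = .stay
          · rw [if_pos hs, if_pos ((mir_stay _ _).2 hs), h1]
            exact ⟨h5, h6⟩
          · rw [if_neg hs, if_neg (by rw [mir_stay]; exact hs)]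
            exact ⟨hs, rfl⟩
        · rw [if_neg h2, if_neg (by rw [mir_stay]; exact h2)]
          exact ⟨h2, rfl⟩

theorem Sim.stepT {w z : List Sym} {off : ℕ} (hw : ∀ n, w[off + n]? = z[n]?) {f : Option Bool}
    {c' : Cfg (M.check c0)} {c : Cfg M} (h : Sim M c0 off f c' c) :
    ∃ f', Sim M c0 off f' ((M.check c0).stepT w c') (M.stepT z c) := by
  rcases h.step hw with ⟨h1, h2⟩ | ⟨d, d', f', h1, h2, h3⟩
  · rw [Machine.stepT_none _ h1, Machine.stepT_none _ h2]
    exact ⟨f, h⟩
  · rw [Machine.stepT_some _ h1, Machine.stepT_some _ h2]
    exact ⟨f', h3⟩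

variable (M c0)

theorem run_sim (u : List Bool) (z : List Sym) (t : ℕ) :
    ∃ f, Sim M c0 (2 * u.length + 2) f
      ((M.check c0).run (blk u u.reverse ++ z) (2 * u.length + 2 + t)) (M.run z t) := by
  induction t with
  | zero =>
    refine ⟨none, ?_⟩
    rw [Nat.add_zero, run_sim0, Machine.run_zero]
    constructor
    · rfl
    · rfl
    · intro i hi
      simp [Csim, Machine.init, hi]
    · intro i hi x
      rfl
    · intro i hi
      simp [Csim, Machine.init, hi]
    · intro i hi
      simp [Csim, Machine.init, hi]
    · simp [Csim, Machine.init]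
    · intro x
      rfl
    · simp only [Csim, Machine.init, if_true]
      split_ifs <;> omega
    · intro _
      exact ⟨rfl, fun _ _ => rfl, rfl, by simp [Csim]⟩
    · intro h
      exact absurd rfl h
  | succ t ih =>
    obtain ⟨f, hf⟩ := ih
    rw [← Nat.add_assoc, Machine.run_succ, Machine.run_succ]
    apply hf.stepT
    intro n
    rw [List.getElem?_append_right (by rw [blk_length]; simp; omega)]
    congr 1
    rw [blk_length]
    simp
    omega

/-- checking one more block costs one reversal on one of the tapes -/
theorem check_mem {b : Fin k → ℕ} {j : ℕ} (hj : F j ∈ LinRevV Sym k b) (c0 : Fin k) :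
    F (j + 1) ∈ LinRevV Sym k (fun i => b i + if i = c0 then 1 else 0) := by
  obtain ⟨M, ⟨c, hc⟩, hrev, hacc⟩ := hj
  have key : ∀ w : List Sym, (∃ T, T ≤ (c + 1) * w.length ∧ (M.check c0).HaltedAt w T ∧
      (w ∈ F (j + 1) ↔ (M.check c0).acc ((M.check c0).run w T).q = true) ∧
      ∀ i t, ((M.check c0).run w t).rev i ≤ b i + if i = c0 then 1 else 0) := by
    intro w
    by_cases hw : ∃ u z, w = blk u u.reverse ++ z
    · obtain ⟨u, z, rfl⟩ := hw
      have hlen : (blk u u.reverse ++ z).length = 2 * u.length + 2 + z.length := by
        rw [List.length_append, blk_length]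
        simp
        omega
      refine ⟨2 * u.length + 2 + c * z.length, ?_, ?_, ?_, ?_⟩
      · rw [hlen]
        nlinarith [Nat.zero_le (c * (2 * u.length + 2)), Nat.zero_le z.length]
      · obtain ⟨f, hf⟩ := run_sim M c0 u z (c * z.length)
        have hw' : ∀ n, (blk u u.reverse ++ z)[2 * u.length + 2 + n]? = z[n]? := by
          intro n
          rw [List.getElem?_append_right (by rw [blk_length]; simp; omega)]
          congr 1
          rw [blk_length]
          simp
          omega
        rcases hf.step hw' with ⟨_, h2⟩ | ⟨d, d', f', h1, _⟩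
        · exact h2
        · have h3 := hc z
          unfold Machine.HaltedAt at h3
          rw [h3] at h1
          exact absurd h1 (by simp)
      · obtain ⟨f, hf⟩ := run_sim M c0 u z (c * z.length)
        have h1 : (M.check c0).acc ((M.check c0).run (blk u u.reverse ++ z)
            (2 * u.length + 2 + c * z.length)).q = M.acc (M.run z (c * z.length)).q := by
          rw [hf.hq]
          rfl
        rw [h1, ← Machine.accepts_iff (hc z), ← hacc z]
        constructor
        · rintro ⟨u', z', hz', he⟩
          rw [(parse_blk he).2.2]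
          exact hz'
        · intro hz
          exact ⟨u, z, hz, rfl⟩
      · intro i t
        rcases Nat.lt_or_ge t (2 * u.length + 2) with ht | ht
        · refine (rev_mono _ _ ht.le i).trans ?_
          rw [run_sim0]
          show (if i = c0 then _ else 0) ≤ _
          split_ifs <;> omega
        · obtain ⟨s, rfl⟩ := Nat.exists_eq_add_of_le ht
          obtain ⟨f, hf⟩ := run_sim M c0 u z s
          by_cases hi : i = c0
          · subst hi
            rw [if_pos rfl]
            exact hf.h0rev.trans (Nat.add_le_add_right (hrev z s i) 1)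
          · rw [if_neg hi, hf.hrev i hi]
            exact hrev z s i
    · obtain ⟨t, h1, h2, h3, h4⟩ := classify M c0 w hw
      refine ⟨t, ?_, h2, ?_, ?_⟩
      · nlinarith [Nat.zero_le (c * w.length)]
      · constructor
        · rintro ⟨u, z, _, he⟩
          exact absurd ⟨u, z, he⟩ hw
        · intro h5
          rw [h3] at h5
          exact absurd h5 (by simp)
      · intro i s
        have h5 : ((M.check c0).run w s).rev i ≤ ((M.check c0).run w t).rev i := by
          rcases le_total s t with h6 | h6
          · exact rev_mono _ _ h6 i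
          · rw [h2.run_eq h6]
        exact h5.trans ((h4 i).trans (Nat.le_add_left _ _))
  refine ⟨M.check c0, ⟨c + 1, fun w => ?_⟩, fun w t i => ?_, fun w => ?_⟩
  · obtain ⟨T, h1, h2, _⟩ := key w
    exact h2.mono h1
  · obtain ⟨T, _, _, _, h4⟩ := key w
    exact h4 i t
  · obtain ⟨T, _, h2, h3, _⟩ := key w
    rw [Machine.accepts_iff h2]
    exact h3

/-- the machine for the language with the empty word only -/
def nilMachine (k : ℕ) : Machine Sym k where
  Q := Bool
  Γ := Unit
  finQ := inferInstance
  finΓ := inferInstance
  blank := ()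
  start := true
  acc q := q
  δ q a s := match q, a with
    | true, some _ => some (false, true, s, fun _ => .stay)
    | _, _ => none

theorem F_zero_mem (k : ℕ) : F 0 ∈ LinRevV Sym k (fun _ => 0) := by
  have h0 : ∀ w : List Sym, (nilMachine k).HaltedAt w (1 * w.length) ∧
      (w ∈ F 0 ↔ (nilMachine k).acc ((nilMachine k).run w (1 * w.length)).q = true) := by
    intro w
    cases w with
    | nil =>
      refine ⟨rfl, ?_⟩
      simp only [F]
      constructor
      · intro _; rfl
      · intro _; exact Set.mem_singleton _
    | cons a w =>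
      have h1 : ((nilMachine k).run (a :: w) 1).q = false := rfl
      have h2 : (nilMachine k).HaltedAt (a :: w) 1 := by
        unfold Machine.HaltedAt
        have : (nilMachine k).step (a :: w) ((nilMachine k).run (a :: w) 1) = none := rfl
        exact this
      have h3 : 1 ≤ 1 * (a :: w).length := by simp
      refine ⟨h2.mono h3, ?_⟩
      rw [h2.run_eq h3, h1]
      simp only [F]
      constructor
      · intro h; exact absurd (Set.mem_singleton_iff.1 h) (by simp)
      · intro h; exact absurd h (by simp [nilMachine])
  refine ⟨nilMachine k, ⟨1, fun w => (h0 w).1⟩, ?_, ?_⟩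
  · intro w t i
    have : ∀ t, ((nilMachine k).run w t).last i = .stay ∧ ((nilMachine k).run w t).rev i = 0 := by
      intro t
      induction t with
      | zero => exact ⟨rfl, rfl⟩
      | succ t ih =>
        rw [Machine.run_succ]
        cases h : (nilMachine k).δ ((nilMachine k).run w t).q w[((nilMachine k).run w t).inp]?
            (fun i => ((nilMachine k).run w t).tape i (((nilMachine k).run w t).pos i)) with
        | none =>
          rw [Machine.stepT_none _ (by rw [Machine.step_eq, h]; rfl)]
          exact ih
        | some r =>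
          rw [stepT_of_δ h]
          have hr : r.2.2.2 i = .stay := by
            generalize ((nilMachine k).run w t).q = q at h
            generalize w[((nilMachine k).run w t).inp]? = a at h
            rcases q with _ | _ <;> rcases a with _ | a
            · exact absurd h (by simp [nilMachine])
            · exact absurd h (by simp [nilMachine])
            · exact absurd h (by simp [nilMachine])
            · simp only [nilMachine, Option.some.injEq] at h
              rw [← h]
          simp only [Machine.nxt, hr]
          simpa using ih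
    exact (this t).2.le
  · intro w
    rw [Machine.accepts_iff (h0 w).1]
    exact (h0 w).2

theorem F_succ_rev {k m j : ℕ} (hk : 1 ≤ k) (hj : F j ∈ LinRev Sym k m) :
    F (j + 1) ∈ LinRev Sym k (m + 1) := by
  rw [linRev_eq] at hj ⊢
  refine linRevV_mono ?_ (check_mem hj ⟨0, hk⟩)
  intro i
  split_ifs <;> omega

theorem F_succ_tape {k m j : ℕ} (hm : 1 ≤ m) (hj : F j ∈ LinRev Sym k m) :
    F (j + 1) ∈ LinRev Sym (k + 1) m := by
  rw [linRev_eq] at hj ⊢
  refine linRevV_mono ?_ (check_mem (linRevV_snoc hj) (Fin.last k))
  intro i
  refine Fin.lastCases ?_ (fun i => ?_) i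
  · simpa using hm
  · simp [Fin.ext_iff, i.2.ne]

end Pool.Agent.Lib57.RTM
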