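import Mathlib

/-! Combinatorics of the images of time intervals. -/

namespace Pool.Agent.Lib57.RTM

open Function

/-- every element of `I` is smaller than every element of `J` -/
def Lt (I J : Set ℕ) : Prop := ∀ a ∈ I, ∀ b ∈ J, a < b

/-- order-convex -/
def Cvx (S : Set ℕ) : Prop := ∀ a ∈ S, ∀ b ∈ S, ∀ t, a ≤ t → t ≤ b → t ∈ S

theorem pig {P : Type} [Fintype P] (n : ℕ) (hn : Fintype.card P < n) (bad : ℕ → P → Prop)
    (h : ∀ i i', i < i' → i' < n → ∀ p, bad i p → bad i' p → False) :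
    ∃ i, i < n ∧ ∀ p, ¬ bad i p := by
  by_contra hcon
  push Not at hcon
  choose f hf using hcon
  obtain ⟨a, b, hab, he⟩ := Fintype.exists_ne_map_eq_of_card_lt
    (fun i : Fin n => f i.1 i.2) (by simpa using hn)
  have ha := hf a.1 a.2
  have hb := hf b.1 b.2
  rw [← he] at hb
  rcases lt_or_gt_of_ne (fun h => hab (Fin.ext h) : a.1 ≠ b.1) with h1 | h1
  · exact h _ _ h1 b.2 _ ha hb
  · exact h _ _ h1 a.2 _ hb ha

/-- there is a chunk whose two copies have disjoint images -/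
theorem exists_good {Wt : Type} [Fintype Wt] (Φ : Wt → Set ℕ → Set ℕ) (D : Set ℕ)
    (hΦ : ∀ ω, (∀ I J, I ⊆ D → J ⊆ D → Lt I J → Lt (Φ ω I) (Φ ω J)) ∨
      (∀ I J, I ⊆ D → J ⊆ D → Lt I J → Lt (Φ ω J) (Φ ω I)))
    (B Nc : ℕ) (hB : Fintype.card (Wt × Wt) < B) (hN : Fintype.card (Wt × Wt) < Nc)
    (I I' : ℕ → ℕ → Set ℕ) (hI : ∀ i c, i < B → c < Nc → I i c ⊆ D)
    (hI' : ∀ i c, i < B → c < Nc → I' i c ⊆ D)
    (o1 : ∀ i c c', i < B → c < c' → c' < Nc → Lt (I i c) (I i c'))
    (o2 : ∀ i c c', i < B → c < c' → c' < Nc → Lt (I' i c') (I' i c))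
    (o3 : ∀ i i' c c', i < i' → i' < B → c < Nc → c' < Nc → Lt (I i c) (I i' c'))
    (o4 : ∀ i i' c c', i < i' → i' < B → c < Nc → c' < Nc → Lt (I' i c) (I' i' c')) :
    ∃ i c, i < B ∧ c < Nc ∧ ∀ ω ω' t, t ∈ Φ ω (I i c) → t ∈ Φ ω' (I' i c) → False := by
  classical
  let ty : Wt → Prop := fun ω => ∀ I J, I ⊆ D → J ⊆ D → Lt I J → Lt (Φ ω I) (Φ ω J)
  have hty : ∀ ω, ¬ ty ω → ∀ I J, I ⊆ D → J ⊆ D → Lt I J → Lt (Φ ω J) (Φ ω I) := by
    intro ω h
    rcases hΦ ω with h1 | h1
    · exact absurd h1 h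
    · exact h1
  obtain ⟨i, hi, hgood⟩ := pig B hB (fun i p => ¬ (ty p.1 ↔ ty p.2) ∧ ∃ c, c < Nc ∧ ∃ t,
    t ∈ Φ p.1 (I i c) ∧ t ∈ Φ p.2 (I' i c)) (by
      rintro i i' hii hi' ⟨ω, ω'⟩ ⟨hne, c, hc, t, ht, ht'⟩ ⟨_, c', hc', s, hs, hs'⟩
      simp only at hne ht ht' hs hs'
      by_cases h1 : ty ω
      · have h2 : ¬ ty ω' := fun h => hne ⟨fun _ => h, fun _ => h1⟩
        have h3 := h1 _ _ (hI i c (by omega) hc) (hI i' c' hi' hc') (o3 i i' c c' hii hi' hc hc')
          t ht s hs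
        have h4 := hty ω' h2 _ _ (hI' i c (by omega) hc) (hI' i' c' hi' hc')
          (o4 i i' c c' hii hi' hc hc') s hs' t ht'
        omega
      · have h2 : ty ω' := by
          by_contra h
          exact hne ⟨fun h' => absurd h' h1, fun h' => absurd h' h⟩
        have h3 := hty ω h1 _ _ (hI i c (by omega) hc) (hI i' c' hi' hc')
          (o3 i i' c c' hii hi' hc hc') s hs t ht
        have h4 := h2 _ _ (hI' i c (by omega) hc) (hI' i' c' hi' hc')
          (o4 i i' c c' hii hi' hc hc') t ht' s hs'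
        omega)
  obtain ⟨c, hc, hgood'⟩ := pig Nc hN (fun c p => (ty p.1 ↔ ty p.2) ∧ ∃ t,
    t ∈ Φ p.1 (I i c) ∧ t ∈ Φ p.2 (I' i c)) (by
      rintro c c' hcc hc' ⟨ω, ω'⟩ ⟨heq, t, ht, ht'⟩ ⟨_, s, hs, hs'⟩
      simp only at heq ht ht' hs hs'
      have hc : c < Nc := by omega
      by_cases h1 : ty ω
      · have h3 := h1 _ _ (hI i c hi hc) (hI i c' hi hc') (o1 i c c' hi hcc hc') t ht s hs
        have h4 := (heq.1 h1) _ _ (hI' i c' hi hc') (hI' i c hi hc) (o2 i c c' hi hcc hc')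
          s hs' t ht'
        omega
      · have h2 : ¬ ty ω' := fun h => h1 (heq.2 h)
        have h3 := hty ω h1 _ _ (hI i c hi hc) (hI i c' hi hc') (o1 i c c' hi hcc hc') s hs t ht
        have h4 := hty ω' h2 _ _ (hI' i c' hi hc') (hI' i c hi hc) (o2 i c c' hi hcc hc')
          t ht' s hs'
        omega)
  refine ⟨i, c, hi, hc, fun ω ω' t ht ht' => ?_⟩
  by_cases h : ty ω ↔ ty ω'
  · exact hgood' (ω, ω') ⟨h, t, ht, ht'⟩
  · exact hgood (ω, ω') ⟨h, c, hc, t, ht, ht'⟩

section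

variable {k : ℕ} (T : ℕ) (pos : Fin k → ℕ → ℤ) (ph : ℕ → ℕ)

/-- the times in phase `Q` at which head `τ` is strictly inside the part visited during `J` -/
def im (τ : Fin k) (Q : ℕ) (J : Set ℕ) : Set ℕ :=
  {t | t < T ∧ ph t = Q ∧ ∃ a ∈ J, ∃ b ∈ J, pos τ a < pos τ t ∧ pos τ t < pos τ b}

/-- iterated images -/
def img (ω : ℕ → Option (Fin k)) : ℕ → Set ℕ → Set ℕ
  | 0, J => J
  | n + 1, J => (ω n).elim (img ω n J) (fun τ => im T pos ph τ n (img ω n J))

theorem img_congr {ω ω' : ℕ → Option (Fin k)} {n : ℕ} (h : ∀ m, m < n → ω m = ω' m)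
    (J : Set ℕ) : img T pos ph ω n J = img T pos ph ω' n J := by
  induction n with
  | zero => rfl
  | succ n ih =>
    rw [img, img, h n (Nat.lt_succ_self n), ih fun m hm => h m (by omega)]

theorem img_none {ω : ℕ → Option (Fin k)} {n n' : ℕ} (hn : n ≤ n')
    (h : ∀ m, n ≤ m → m < n' → ω m = none) (J : Set ℕ) :
    img T pos ph ω n' J = img T pos ph ω n J := by
  induction n', hn using Nat.le_induction with
  | base => rfl
  | succ m hm ih =>
    rw [img, h m hm (Nat.lt_succ_self m)]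
    exact ih fun m' h1 h2 => h m' h1 (by omega)

variable {T pos ph}

theorem img_lt {ω : ℕ → Option (Fin k)} {n : ℕ} {J : Set ℕ} (hJ : ∀ t ∈ J, t < T) :
    ∀ t ∈ img T pos ph ω n J, t < T := by
  induction n with
  | zero => exact hJ
  | succ n ih =>
    intro t ht
    rw [img] at ht
    cases h : ω n with
    | none => rw [h] at ht; exact ih t ht
    | some τ => rw [h] at ht; exact ht.1

theorem img_phase {ω : ℕ → Option (Fin k)} {Q P : ℕ} (hQ : Q ≤ P) (J : Set ℕ) :
    img T pos ph ω P J = img T pos ph ω Q J ∨ ∀ t ∈ img T pos ph ω P J, Q ≤ ph t := by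
  induction P, hQ using Nat.le_induction with
  | base => exact Or.inl rfl
  | succ n hn ih =>
    cases h : ω n with
    | none =>
      have e : img T pos ph ω (n + 1) J = img T pos ph ω n J := by rw [img, h]; rfl
      rw [e]
      exact ih
    | some τ =>
      right
      intro t ht
      rw [img, h] at ht
      have : ph t = n := ht.2.1
      omega

theorem img_closed {ω : ℕ → Option (Fin k)} {Q P : ℕ} (hQ : Q < P) {J : Set ℕ} {τ : Fin k} {t : ℕ}
    (ht : t ∈ im T pos ph τ Q (img T pos ph ω Q J)) : ∃ ω', t ∈ img T pos ph ω' P J := by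
  refine ⟨fun n => if n < Q then ω n else if n = Q then some τ else none, ?_⟩
  rw [img_none T pos ph (show Q + 1 ≤ P from hQ) (fun m h1 h2 => by
    rw [if_neg (by omega), if_neg (by omega)])]
  rw [img]
  simp only [lt_irrefl, if_false, if_true, Option.elim_some]
  rw [img_congr T pos ph (ω' := ω) (fun m hm => if_pos hm)]
  exact ht

variable (hph : ∀ s t, s ≤ t → ph s ≤ ph t)
  (hmon : ∀ τ Q, (∀ s t, s ≤ t → ph s = Q → ph t = Q → pos τ s ≤ pos τ t) ∨
    (∀ s t, s ≤ t → ph s = Q → ph t = Q → pos τ t ≤ pos τ s))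

include hph hmon in
theorem im_cvx (τ : Fin k) (Q : ℕ) (J : Set ℕ) : Cvx (im T pos ph τ Q J) := by
  rintro a ⟨ha1, ha2, a1, ha3, b1, hb1, h1, h2⟩ b ⟨hb1', hb2, a2, ha4, b2, hb3, h3, h4⟩ t hat htb
  have hpt : ph t = Q := by
    have := hph a t hat
    have := hph t b htb
    omega
  refine ⟨by omega, hpt, ?_⟩
  rcases hmon τ Q with h | h
  · have h5 := h a t hat ha2 hpt
    have h6 := h t b htb hpt hb2
    exact ⟨a1, ha3, b2, hb3, by omega, by omega⟩
  · have h5 := h a t hat ha2 hpt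
    have h6 := h t b htb hpt hb2
    exact ⟨a2, ha4, b1, hb1, by omega, by omega⟩

include hph hmon in
theorem img_cvx (ω : ℕ → Option (Fin k)) (n : ℕ) {J : Set ℕ} (hJ : Cvx J) :
    Cvx (img T pos ph ω n J) := by
  induction n with
  | zero => exact hJ
  | succ n ih =>
    rw [img]
    cases h : ω n with
    | none => exact ih
    | some τ => exact im_cvx hph hmon τ n _

include hmon in
theorem im_order (τ : Fin k) (q Q : ℕ) :
    (∀ I J, I ⊆ {t | ph t = q} → J ⊆ {t | ph t = q} → Lt I J →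
      Lt (im T pos ph τ Q I) (im T pos ph τ Q J)) ∨
    (∀ I J, I ⊆ {t | ph t = q} → J ⊆ {t | ph t = q} → Lt I J →
      Lt (im T pos ph τ Q J) (im T pos ph τ Q I)) := by
  rcases hmon τ q with h | h <;> rcases hmon τ Q with h' | h'
  · left
    rintro I J hI hJ hlt t ⟨_, ht, a, ha, b, hb, h1, h2⟩ t' ⟨_, ht', a', ha', b', hb', h3, h4⟩
    have h5 := h b a' (hlt b hb a' ha').le (hI hb) (hJ ha')
    by_contra h6
    have h7 := h' t' t (by omega) ht' ht
    omega
  · right
    rintro I J hI hJ hlt t' ⟨_, ht', a', ha', b', hb', h3, h4⟩ t ⟨_, ht, a, ha, b, hb, h1, h2⟩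
    have h5 := h b a' (hlt b hb a' ha').le (hI hb) (hJ ha')
    by_contra h6
    have h7 := h' t t' (by omega) ht ht'
    omega
  · right
    rintro I J hI hJ hlt t' ⟨_, ht', a', ha', b', hb', h3, h4⟩ t ⟨_, ht, a, ha, b, hb, h1, h2⟩
    have h5 := h a b' (hlt a ha b' hb').le (hI ha) (hJ hb')
    by_contra h6
    have h7 := h' t t' (by omega) ht ht'
    omega
  · left
    rintro I J hI hJ hlt t ⟨_, ht, a, ha, b, hb, h1, h2⟩ t' ⟨_, ht', a', ha', b', hb', h3, h4⟩
    have h5 := h a b' (hlt a ha b' hb').le (hI ha) (hJ hb')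
    by_contra h6
    have h7 := h' t' t (by omega) ht' ht
    omega

include hmon in
theorem img_order (ω : ℕ → Option (Fin k)) (n Q0 : ℕ) :
    ∃ q, (∀ I, I ⊆ {t | ph t = Q0} → img T pos ph ω n I ⊆ {t | ph t = q}) ∧
    ((∀ I J, I ⊆ {t | ph t = Q0} → J ⊆ {t | ph t = Q0} → Lt I J →
      Lt (img T pos ph ω n I) (img T pos ph ω n J)) ∨
    (∀ I J, I ⊆ {t | ph t = Q0} → J ⊆ {t | ph t = Q0} → Lt I J →
      Lt (img T pos ph ω n J) (img T pos ph ω n I))) := by
  induction n with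
  | zero => exact ⟨Q0, fun I hI => hI, Or.inl fun I J _ _ h => h⟩
  | succ n ih =>
    cases h : ω n with
    | none =>
      have e : ∀ I, img T pos ph ω (n + 1) I = img T pos ph ω n I := by
        intro I; rw [img, h]; rfl
      simp only [e]
      exact ih
    | some τ =>
      obtain ⟨q, h1, h2⟩ := ih
      have e : ∀ I, img T pos ph ω (n + 1) I = im T pos ph τ n (img T pos ph ω n I) := by
        intro I; rw [img, h]; rfl
      simp only [e]
      refine ⟨n, fun I _ t ht => ht.2.1, ?_⟩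
      rcases im_order (T := T) hmon τ q n with h3 | h3 <;> rcases h2 with h4 | h4
      · exact Or.inl fun I J hI hJ hlt => h3 _ _ (h1 I hI) (h1 J hJ) (h4 I J hI hJ hlt)
      · exact Or.inr fun I J hI hJ hlt => h3 _ _ (h1 J hJ) (h1 I hI) (h4 I J hI hJ hlt)
      · exact Or.inr fun I J hI hJ hlt => h3 _ _ (h1 I hI) (h1 J hJ) (h4 I J hI hJ hlt)
      · exact Or.inl fun I J hI hJ hlt => h3 _ _ (h1 J hJ) (h1 I hI) (h4 I J hI hJ hlt)

end

/-! ### enumeration of cuts -/

/-- the next element of a finite set -/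
noncomputable def nx (C : Finset ℕ) (a : ℕ) : ℕ :=
  if h : (C.filter (a < ·)).Nonempty then (C.filter (a < ·)).min' h else a

theorem nx_le (C : Finset ℕ) (a : ℕ) : a ≤ nx C a := by
  unfold nx
  split_ifs with h
  · have := Finset.min'_mem _ h
    rw [Finset.mem_filter] at this
    exact this.2.le
  · exact le_rfl

theorem nx_mem {C : Finset ℕ} {a : ℕ} (ha : a ∈ C) : nx C a ∈ C := by
  unfold nx
  split_ifs with h
  · have := Finset.min'_mem _ h
    rw [Finset.mem_filter] at this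
    exact this.1
  · exact ha

theorem nx_gap {C : Finset ℕ} {a c : ℕ} (hc : c ∈ C) : c ≤ a ∨ nx C a ≤ c := by
  by_cases h : c ≤ a
  · exact Or.inl h
  · right
    have h1 : c ∈ C.filter (a < ·) := by
      rw [Finset.mem_filter]
      exact ⟨hc, by omega⟩
    unfold nx
    rw [dif_pos ⟨c, h1⟩]
    exact Finset.min'_le _ _ h1

theorem nx_lt {C : Finset ℕ} {a c : ℕ} (hc : c ∈ C) (h : a < c) : a < nx C a := by
  have h1 : c ∈ C.filter (a < ·) := by
    rw [Finset.mem_filter]
    exact ⟨hc, h⟩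
  unfold nx
  rw [dif_pos ⟨c, h1⟩]
  have := Finset.min'_mem _ ⟨c, h1⟩
  rw [Finset.mem_filter] at this
  exact this.2

theorem enum_cuts (C : Finset ℕ) (T R : ℕ) (h0 : 0 ∈ C) (hT : T ∈ C) (hle : ∀ c ∈ C, c ≤ T)
    (hR : C.card ≤ R) : ∃ κ : ℕ → ℕ, κ 0 = 0 ∧ κ R = T ∧ (∀ r, κ r ≤ κ (r + 1)) ∧
      (∀ r, κ r ∈ C) ∧ ∀ r, ∀ c ∈ C, c ≤ κ r ∨ κ (r + 1) ≤ c := by
  have hs : ∀ r, (nx C)^[r + 1] 0 = nx C ((nx C)^[r] 0) := fun r => iterate_succ_apply' _ _ _
  have hmem : ∀ r, (nx C)^[r] 0 ∈ C := by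
    intro r
    induction r with
    | zero => exact h0
    | succ r ih => rw [hs]; exact nx_mem ih
  refine ⟨fun r => (nx C)^[r] 0, rfl, ?_, ?_, hmem, ?_⟩
  · have key : ∀ r, (nx C)^[r] 0 = T ∨ r + 1 ≤ (C.filter (· ≤ (nx C)^[r] 0)).card := by
      intro r
      induction r with
      | zero =>
        right
        exact Finset.card_pos.2 ⟨0, by simp [h0]⟩
      | succ r ih =>
        rcases ih with ih | ih
        · left
          rw [hs, ih]
          exact le_antisymm (hle _ (nx_mem hT)) (nx_le C T)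
        · by_cases hc : (nx C)^[r] 0 = T
          · left
            rw [hs, hc]
            exact le_antisymm (hle _ (nx_mem hT)) (nx_le C T)
          · right
            have h1 : (nx C)^[r] 0 < T := lt_of_le_of_ne (hle _ (hmem r)) hc
            have h2 := nx_lt hT h1
            rw [← hs] at h2
            have h3 : C.filter (· ≤ (nx C)^[r] 0) ⊂ C.filter (· ≤ (nx C)^[r + 1] 0) := by
              rw [Finset.ssubset_iff_of_subset]
              · refine ⟨(nx C)^[r + 1] 0, ?_, ?_⟩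
                · rw [Finset.mem_filter]
                  exact ⟨hmem _, le_rfl⟩
                · rw [Finset.mem_filter]
                  rintro ⟨_, h4⟩
                  omega
              · intro x hx
                rw [Finset.mem_filter] at hx ⊢
                exact ⟨hx.1, by omega⟩
            have h4 := Finset.card_lt_card h3
            omega
    rcases key R with h | h
    · exact h
    · exfalso
      have h1 := Finset.card_le_card (Finset.filter_subset (· ≤ (nx C)^[R] 0) C)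
      omega
  · intro r
    simp only [hs]
    exact nx_le C _
  · intro r c hc
    simp only [hs]
    exact nx_gap hc

end Pool.Agent.Lib57.RTM
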