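import Mathlib
import Pool.Agent.Lib_helper57.RTM.Build2

/-! Trajectories: bounds, phases, monotonicity within a phase. -/

namespace Pool.Agent.Lib57.RTM

open Function

variable {α : Type} {k : ℕ} (M : Machine α k) (w : List α)

theorem inp_mono {t t' : ℕ} (h : t ≤ t') : (M.run w t).inp ≤ (M.run w t').inp := by
  induction t', h using Nat.le_induction with
  | base => exact le_rfl
  | succ n _ ih =>
    rw [Machine.run_succ]
    rcases Machine.stepT_inp (M := M) w (M.run w n) with h | h <;> rw [h] <;> omega

theorem inp_le (t : ℕ) : (M.run w t).inp ≤ t := by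
  induction t with
  | zero => exact le_rfl
  | succ t ih =>
    rw [Machine.run_succ]
    rcases Machine.stepT_inp (M := M) w (M.run w t) with h | h <;> rw [h] <;> omega

theorem shift_le (d : Dir) : |d.shift| ≤ 1 := by
  cases d <;> simp [Dir.shift]

theorem pos_step (t : ℕ) (i : Fin k) : |(M.run w (t + 1)).pos i - (M.run w t).pos i| ≤ 1 := by
  rw [Machine.run_succ]
  obtain ⟨d, h, _⟩ := Machine.stepT_tapes (M := M) w (M.run w t) i
  rw [h, add_sub_cancel_left]
  exact shift_le d

theorem pos_le (t : ℕ) (i : Fin k) : |(M.run w t).pos i| ≤ t := by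
  induction t with
  | zero => exact (abs_zero).le
  | succ t ih =>
    have h := pos_step M w t i
    rw [abs_le] at h ih ⊢
    push_cast
    omega

/-- total number of reversals -/
def ph (t : ℕ) : ℕ := ∑ i, (M.run w t).rev i

theorem ph_mono {t t' : ℕ} (h : t ≤ t') : ph M w t ≤ ph M w t' :=
  Finset.sum_le_sum fun i _ => rev_mono M w h i

theorem rev_eq_of_ph {t t' : ℕ} (h : t ≤ t') (hp : ph M w t = ph M w t') (i : Fin k) :
    (M.run w t).rev i = (M.run w t').rev i :=
  (Finset.sum_eq_sum_iff_of_le fun i _ => rev_mono M w h i).1 hp i (Finset.mem_univ i)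

theorem last_persist {s t : ℕ} (h : s ≤ t) (i : Fin k)
    (hr : (M.run w s).rev i = (M.run w t).rev i) (hs : (M.run w s).last i ≠ .stay) :
    (M.run w t).last i = (M.run w s).last i := by
  induction t, h using Nat.le_induction with
  | base => rfl
  | succ n hn ih =>
    have h1 := rev_mono M w hn i
    have h2 := rev_mono M w (show n ≤ n + 1 by omega) i
    have h3 : (M.run w s).rev i = (M.run w n).rev i := by omega
    have h4 := ih h3
    rw [h3, Machine.run_succ] at hr
    rw [Machine.run_succ]
    obtain ⟨d, _, h5, h6, _⟩ := Machine.stepT_tapes (M := M) w (M.run w n) i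
    rw [h6] at hr
    rw [h5]
    by_cases hd : d = .stay
    · rw [if_pos hd, h4]
    · rw [if_neg hd]
      by_contra h7
      rw [if_pos ⟨hd, by rw [h4]; exact hs, by rw [h4]; exact h7⟩] at hr
      omega

/-- within a phase a head does not move in both directions -/
theorem no_turn {s t : ℕ} (h : s < t) (i : Fin k)
    (hr : (M.run w s).rev i = (M.run w (t + 1)).rev i)
    (hs : (M.run w (s + 1)).pos i ≠ (M.run w s).pos i)
    (ht : (M.run w (t + 1)).pos i ≠ (M.run w t).pos i) :
    (M.run w (s + 1)).pos i - (M.run w s).pos i = (M.run w (t + 1)).pos i - (M.run w t).pos i := by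
  have h1 := rev_mono M w (show s ≤ s + 1 by omega) i
  have h2 := rev_mono M w (show s + 1 ≤ t from h) i
  have h3 := rev_mono M w (show t ≤ t + 1 by omega) i
  rw [Machine.run_succ] at hs
  obtain ⟨d, hp, hl, _, _⟩ := Machine.stepT_tapes (M := M) w (M.run w s) i
  have hd : d ≠ .stay := by
    intro hd
    rw [hp, hd] at hs
    simp [Dir.shift] at hs
  rw [if_neg hd] at hl
  have hl2 : (M.run w (s + 1)).last i = d := by rw [Machine.run_succ]; exact hl
  have h4 : (M.run w t).last i = d := by
    rw [last_persist M w (show s + 1 ≤ t from h) i (by omega) (by rw [hl2]; exact hd), hl2]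
  obtain ⟨d', hp', _, hr', _⟩ := Machine.stepT_tapes (M := M) w (M.run w t) i
  have e1 : (M.run w (s + 1)).pos i - (M.run w s).pos i = d.shift := by
    rw [Machine.run_succ, hp]; ring
  have e2 : (M.run w (t + 1)).pos i - (M.run w t).pos i = d'.shift := by
    rw [Machine.run_succ, hp']; ring
  have hd' : d' ≠ .stay := by
    intro h5
    rw [h5] at e2
    simp only [Dir.shift] at e2
    exact ht (by omega)
  rw [e1, e2]
  by_contra h5
  have h6 : d' ≠ d := by
    intro h7
    exact h5 (by rw [h7])
  rw [h4, if_pos ⟨hd', hd, h6⟩] at hr'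
  rw [← Machine.run_succ] at hr'
  omega

/-- within a phase each head moves monotonically -/
theorem phase_mono (i : Fin k) (Q : ℕ) :
    (∀ s t, s ≤ t → ph M w s = Q → ph M w t = Q → (M.run w s).pos i ≤ (M.run w t).pos i) ∨
    (∀ s t, s ≤ t → ph M w s = Q → ph M w t = Q → (M.run w t).pos i ≤ (M.run w s).pos i) := by
  by_cases h : ∃ s, ph M w s = Q ∧ ph M w (s + 1) = Q ∧
      (M.run w (s + 1)).pos i < (M.run w s).pos i
  · obtain ⟨s, h1, h2, h3⟩ := h
    right
    intro a b hab
    induction b, hab using Nat.le_induction with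
    | base => intro _ _; exact le_rfl
    | succ n hn ih =>
      intro ha hb
      have h4 : ph M w n = Q := by
        have := ph_mono M w hn
        have := ph_mono M w (show n ≤ n + 1 by omega)
        omega
      refine le_trans ?_ (ih ha h4)
      by_contra h5
      rw [not_le] at h5
      rcases lt_trichotomy s n with h6 | h6 | h6
      · have h7 := no_turn M w h6 i (rev_eq_of_ph M w (by omega) (by rw [h1, hb]) i)
          (by omega) (by omega)
        omega
      · subst h6
        omega
      · have h7 := no_turn M w h6 i (rev_eq_of_ph M w (by omega) (by rw [h4, h2]) i)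
          (by omega) (by omega)
        omega
  · left
    intro a b hab
    induction b, hab using Nat.le_induction with
    | base => intro _ _; exact le_rfl
    | succ n hn ih =>
      intro ha hb
      have h4 : ph M w n = Q := by
        have := ph_mono M w hn
        have := ph_mono M w (show n ≤ n + 1 by omega)
        omega
      refine le_trans (ih ha h4) ?_
      by_contra h5
      rw [not_le] at h5
      exact h ⟨n, h4, hb, h5⟩

theorem ph_le {m : ℕ} (hm : M.RevBounded m) (t : ℕ) : ph M w t ≤ k * m := by
  unfold ph
  calc ∑ i, (M.run w t).rev i ≤ ∑ _i : Fin k, m := Finset.sum_le_sum fun i _ => hm w t i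
    _ = k * m := by simp

end Pool.Agent.Lib57.RTM
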