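import Mathlib
import Pool.Agent.Lib_helper57.RTM.Traj

/-! The hybrid lemma: two runs with the same interface can be combined. -/

namespace Pool.Agent.Lib57.RTM

open Function

variable {α : Type} {k : ℕ} {M : Machine α k}

/-- strictly between -/
def Btw (a b z : ℤ) : Prop := min a b < z ∧ z < max a b

instance (a b z : ℤ) : Decidable (Btw a b z) := by unfold Btw; infer_instance

theorem unchanged (w : List α) {a b : ℕ} (hab : a ≤ b) (i : Fin k) (z : ℤ)
    (h : ∀ t, a ≤ t → t < b → (M.run w t).pos i ≠ z) :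
    (M.run w b).tape i z = (M.run w a).tape i z := by
  induction b, hab using Nat.le_induction with
  | base => rfl
  | succ n hn ih =>
    rw [← ih (fun t h1 h2 => h t h1 (by omega)), Machine.run_succ]
    obtain ⟨d, _, _, _, h5⟩ := Machine.stepT_tapes (M := M) w (M.run w n) i
    exact h5 z (Ne.symm (h n hn (by omega)))

/-- agreement of two configurations on the cells outside `bad` -/
def Agree (bad : Fin k → ℤ → Prop) (Z U : Cfg M) : Prop :=
  Z.q = U.q ∧ Z.inp = U.inp ∧ Z.pos = U.pos ∧ ∀ i z, ¬ bad i z → Z.tape i z = U.tape i z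

theorem follow (wU wZ : List α) {a b : ℕ} (hab : a ≤ b) (bad : Fin k → ℤ → Prop)
    (h0 : Agree bad (M.run wZ a) (M.run wU a))
    (hvis : ∀ t, a ≤ t → t < b → ∀ i, ¬ bad i ((M.run wU t).pos i))
    (hinp : ∀ t, a ≤ t → t < b → wU[(M.run wU t).inp]? = wZ[(M.run wU t).inp]?) :
    Agree bad (M.run wZ b) (M.run wU b) ∧
      ∀ i z, bad i z → (M.run wZ b).tape i z = (M.run wZ a).tape i z := by
  have key : ∀ c, a ≤ c → c ≤ b → Agree bad (M.run wZ c) (M.run wU c) := by
    intro c hc
    induction c, hc using Nat.le_induction with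
    | base => intro _; exact h0
    | succ n hn ih =>
      intro hb
      obtain ⟨hq, hi, hp, ht⟩ := ih (by omega)
      have hv := hvis n hn (by omega)
      have hI := hinp n hn (by omega)
      obtain ⟨g1, g2, g3, g4⟩ := Machine.stepT_congr (M := M) (w := wZ) (w' := wU) hq hi
        (by rw [hi]; exact hI.symm) hp (by
          intro i
          rw [hp]
          exact ht i _ (hv i))
      rw [← Machine.run_succ, ← Machine.run_succ] at g1 g2 g3
      refine ⟨g1, g2, g3, fun i z hz => ?_⟩
      rw [Machine.run_succ, Machine.run_succ]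
      by_cases hz' : z = (M.run wZ n).pos i
      · rw [hz']
        exact g4 i
      · obtain ⟨d, _, _, _, h5⟩ := Machine.stepT_tapes (M := M) wZ (M.run wZ n) i
        obtain ⟨d', _, _, _, h6⟩ := Machine.stepT_tapes (M := M) wU (M.run wU n) i
        rw [h5 z hz', h6 z (by rw [← hp]; exact hz')]
        exact ht i z hz
  refine ⟨key b hab le_rfl, fun i z hz => ?_⟩
  apply unchanged wZ hab
  intro t h1 h2 h3
  have h4 := (key t h1 h2.le).2.2.1
  apply hvis t h1 h2 i
  rw [← h4, h3]
  exact hz

/-- a segment in which the hybrid run follows `U` -/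
theorem seg_mode (wU wV wZ : List α) {a b : ℕ} (hab : a ≤ b) (μ : Bool)
    (o o' : Fin k → ℤ → Option Bool)
    (hZ : Agree (fun i z => o i z = some (!μ)) (M.run wZ a) (M.run wU a))
    (hV : ∀ i z, o i z ≠ some μ → (M.run wZ a).tape i z = (M.run wV a).tape i z)
    (visU : ∀ t, a ≤ t → t < b → ∀ i, o i ((M.run wU t).pos i) ≠ some (!μ))
    (visV : ∀ t, a ≤ t → t < b → ∀ i, o i ((M.run wV t).pos i) ≠ some (!μ))
    (hinp : ∀ t, a ≤ t → t < b → wU[(M.run wU t).inp]? = wZ[(M.run wU t).inp]?)
    (ho' : ∀ i z, o' i z = if o i z ≠ none then o i z else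
      if Btw ((M.run wU a).pos i) ((M.run wU b).pos i) z then some μ else none)
    (pa : (M.run wU a).pos = (M.run wV a).pos) (pb : (M.run wU b).pos = (M.run wV b).pos)
    (hbU : ∀ t, a ≤ t → t ≤ b → ∀ i, min ((M.run wU a).pos i) ((M.run wU b).pos i) ≤
      (M.run wU t).pos i ∧ (M.run wU t).pos i ≤ max ((M.run wU a).pos i) ((M.run wU b).pos i))
    (hbV : ∀ t, a ≤ t → t ≤ b → ∀ i, min ((M.run wU a).pos i) ((M.run wU b).pos i) ≤
      (M.run wV t).pos i ∧ (M.run wV t).pos i ≤ max ((M.run wU a).pos i) ((M.run wU b).pos i))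
    (e1 : ∀ i, (M.run wU b).tape i ((M.run wU b).pos i) = (M.run wV b).tape i ((M.run wU b).pos i))
    (e2 : ∀ i, (M.run wU b).tape i ((M.run wU a).pos i) =
      (M.run wV b).tape i ((M.run wU a).pos i)) :
    Agree (fun i z => o' i z = some (!μ)) (M.run wZ b) (M.run wU b) ∧
      ∀ i z, o' i z ≠ some μ → (M.run wZ b).tape i z = (M.run wV b).tape i z := by
  obtain ⟨⟨f1, f2, f3, f4⟩, f5⟩ := follow wU wZ hab _ hZ visU hinp
  refine ⟨⟨f1, f2, f3, fun i z hz => ?_⟩, fun i z hz => ?_⟩
  · apply f4
    intro h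
    apply hz
    show o' i z = _
    rw [ho' i z, if_pos (by rw [h]; simp)]
    exact h
  · rw [ho' i z] at hz
    by_cases hn : o i z = none
    · rw [if_neg (by rw [hn]; simp)] at hz
      have hnb : ¬ Btw ((M.run wU a).pos i) ((M.run wU b).pos i) z := by
        intro h
        rw [if_pos h] at hz
        exact hz rfl
      rw [f4 i z (by show o i z ≠ _; rw [hn]; simp)]
      by_cases h1 : z = (M.run wU b).pos i
      · rw [h1]; exact e1 i
      · by_cases h2 : z = (M.run wU a).pos i
        · rw [h2]; exact e2 i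
        · have hout : ∀ x : ℤ, min ((M.run wU a).pos i) ((M.run wU b).pos i) ≤ x →
              x ≤ max ((M.run wU a).pos i) ((M.run wU b).pos i) → x ≠ z := by
            intro x hx1 hx2 hx3
            subst hx3
            apply hnb
            constructor
            · rcases hx1.lt_or_eq with h3 | h3
              · exact h3
              · exfalso
                rcases min_choice ((M.run wU a).pos i) ((M.run wU b).pos i) with h4 | h4
                · exact h2 (by rw [← h3, h4])
                · exact h1 (by rw [← h3, h4])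
            · rcases hx2.lt_or_eq with h3 | h3
              · exact h3
              · exfalso
                rcases max_choice ((M.run wU a).pos i) ((M.run wU b).pos i) with h4 | h4
                · exact h2 (by rw [h3, h4])
                · exact h1 (by rw [h3, h4])
          rw [unchanged wU hab i z (fun t h3 h4 => hout _ (hbU t h3 h4.le i).1 (hbU t h3 h4.le i).2),
            unchanged wV hab i z (fun t h3 h4 => hout _ (hbV t h3 h4.le i).1 (hbV t h3 h4.le i).2),
            ← hZ.2.2.2 i z (by show o i z ≠ _; rw [hn]; simp), hV i z (by rw [hn]; simp)]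
    · rw [if_pos hn] at hz
      have hm : o i z = some (!μ) := by
        rcases h : o i z with _ | ν
        · exact absurd h hn
        · rw [h] at hz
          cases ν <;> cases μ <;> simp_all
      rw [f5 i z hm, hV i z hz]
      symm
      apply unchanged wV hab i z
      intro t h3 h4 h5
      apply visV t h3 h4 i
      rw [h5]
      exact hm

/-- the owner of a cell after `r` segments -/
def own (p : ℕ → Fin k → ℤ) (mode : ℕ → Option Bool) : ℕ → Fin k → ℤ → Option Bool
  | 0, _, _ => none
  | r + 1, i, z => if own p mode r i z ≠ none then own p mode r i z else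
      if Btw (p r i) (p (r + 1) i) z then mode r else none

theorem own_spec (p : ℕ → Fin k → ℤ) (mode : ℕ → Option Bool) (r : ℕ) (i : Fin k) (z : ℤ)
    (μ : Bool) (h : own p mode r i z = some μ) :
    ∃ s, s < r ∧ mode s = some μ ∧ Btw (p s i) (p (s + 1) i) z := by
  induction r with
  | zero => exact absurd h (by simp [own])
  | succ r ih =>
    rw [own] at h
    by_cases h1 : own p mode r i z = none
    · rw [if_neg (by rw [h1]; simp)] at h
      by_cases h2 : Btw (p r i) (p (r + 1) i) z
      · rw [if_pos h2] at h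
        exact ⟨r, Nat.lt_succ_self r, h, h2⟩
      · rw [if_neg h2] at h
        exact absurd h (by simp)
    · rw [if_pos h1] at h
      obtain ⟨s, h2, h3⟩ := ih h
      exact ⟨s, by omega, h3⟩

/-- a schedule of a run -/
structure IsSched (M : Machine α k) (w : List α) (T R : ℕ) (cA cB : Set ℕ) (κ : ℕ → ℕ)
    (mode : ℕ → Option Bool) : Prop where
  κ0 : κ 0 = 0
  κR : κ R = T
  mono : ∀ r, r < R → κ r ≤ κ (r + 1)
  hb : ∀ r, r < R → mode r ≠ none → ∀ t, κ r ≤ t → t ≤ κ (r + 1) → ∀ i,
    min ((M.run w (κ r)).pos i) ((M.run w (κ (r + 1))).pos i) ≤ (M.run w t).pos i ∧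
    (M.run w t).pos i ≤ max ((M.run w (κ r)).pos i) ((M.run w (κ (r + 1))).pos i)
  hc : ∀ r, r < R → ∀ t, κ r ≤ t → t < κ (r + 1) → ∀ i s, s < r → mode s ≠ none →
    Btw ((M.run w (κ s)).pos i) ((M.run w (κ (s + 1))).pos i) ((M.run w t).pos i) →
    mode r = mode s
  hA : ∀ r, r < R → ∀ t, κ r ≤ t → t < κ (r + 1) → mode r ≠ some true → (M.run w t).inp ∉ cA
  hB : ∀ r, r < R → ∀ t, κ r ≤ t → t < κ (r + 1) → mode r ≠ some false → (M.run w t).inp ∉ cB

theorem IsSched.congr {w : List α} {T R : ℕ} {cA cB : Set ℕ} {κ κ' : ℕ → ℕ}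
    {mode mode' : ℕ → Option Bool} (h : IsSched M w T R cA cB κ mode)
    (hκ : ∀ r, r ≤ R → κ' r = κ r) (hm : ∀ r, r ≤ R → mode' r = mode r) :
    IsSched M w T R cA cB κ' mode' where
  κ0 := by rw [hκ 0 (Nat.zero_le R)]; exact h.κ0
  κR := by rw [hκ R le_rfl]; exact h.κR
  mono r hr := by rw [hκ r hr.le, hκ (r + 1) hr]; exact h.mono r hr
  hb r hr := by
    rw [hκ r hr.le, hκ (r + 1) hr, hm r hr.le]
    exact h.hb r hr
  hc r hr := by
    rw [hκ r hr.le, hκ (r + 1) hr, hm r hr.le]
    intro t h1 h2 i s hs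
    rw [hκ s (by omega), hκ (s + 1) (by omega), hm s (by omega)]
    exact h.hc r hr t h1 h2 i s hs
  hA r hr := by
    rw [hκ r hr.le, hκ (r + 1) hr, hm r hr.le]
    exact h.hA r hr
  hB r hr := by
    rw [hκ r hr.le, hκ (r + 1) hr, hm r hr.le]
    exact h.hB r hr

theorem IsSched.vis {w : List α} {T R : ℕ} {cA cB : Set ℕ} {κ : ℕ → ℕ} {mode : ℕ → Option Bool}
    (h : IsSched M w T R cA cB κ mode) {p : ℕ → Fin k → ℤ}
    (hp : ∀ r, r ≤ R → p r = (M.run w (κ r)).pos)
    {r : ℕ} (hr : r < R) {t : ℕ} (h1 : κ r ≤ t) (h2 : t < κ (r + 1)) (i : Fin k) (μ : Bool)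
    (hm : own p mode r i ((M.run w t).pos i) = some μ) : mode r = some μ := by
  obtain ⟨s, h3, h4, h5⟩ := own_spec p mode r i _ μ hm
  rw [hp s (by omega), hp (s + 1) (by omega)] at h5
  rw [h.hc r hr t h1 h2 i s h3 (by rw [h4]; simp) h5, h4]

/-- the hybrid lemma -/
theorem hybrid {wX wY wZ : List α} {T R : ℕ} {cA cB : Set ℕ} {κ : ℕ → ℕ}
    {mode : ℕ → Option Bool} (hX : IsSched M wX T R cA cB κ mode)
    (hY : IsSched M wY T R cA cB κ mode)
    (eq : ∀ r, r ≤ R → (M.run wX (κ r)).q = (M.run wY (κ r)).q ∧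
      (M.run wX (κ r)).inp = (M.run wY (κ r)).inp ∧
      (M.run wX (κ r)).pos = (M.run wY (κ r)).pos ∧
      (∀ i, (M.run wX (κ r)).tape i ((M.run wX (κ r)).pos i) =
        (M.run wY (κ r)).tape i ((M.run wX (κ r)).pos i)))
    (eq2 : ∀ r, r < R → ∀ i, (M.run wX (κ (r + 1))).tape i ((M.run wX (κ r)).pos i) =
        (M.run wY (κ (r + 1))).tape i ((M.run wX (κ r)).pos i))
    (hwX : ∀ n, n ∉ cB → wX[n]? = wZ[n]?) (hwY : ∀ n, n ∉ cA → wY[n]? = wZ[n]?) :
    (M.run wZ T).q = (M.run wX T).q := by
  set p : ℕ → Fin k → ℤ := fun r => (M.run wX (κ r)).pos with hp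
  have hpX : ∀ r, r ≤ R → p r = (M.run wX (κ r)).pos := fun r _ => rfl
  have hpY : ∀ r, r ≤ R → p r = (M.run wY (κ r)).pos := fun r hr => (eq r hr).2.2.1
  have key : ∀ r, r ≤ R →
      Agree (fun i z => own p mode r i z = some false) (M.run wZ (κ r)) (M.run wX (κ r)) ∧
      ∀ i z, own p mode r i z ≠ some true →
        (M.run wZ (κ r)).tape i z = (M.run wY (κ r)).tape i z := by
    intro r
    induction r with
    | zero =>
      intro _
      rw [hX.κ0]
      exact ⟨⟨rfl, rfl, rfl, fun _ _ _ => rfl⟩, fun _ _ _ => rfl⟩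
    | succ r ih =>
      intro hr
      obtain ⟨hZ, hV⟩ := ih (by omega)
      have hr' : r < R := by omega
      have hab := hX.mono r hr'
      rcases hmode : mode r with _ | μ
      · -- neutral
        have own' : ∀ i z, own p mode (r + 1) i z = own p mode r i z := by
          intro i z
          rw [own, hmode]
          by_cases h1 : own p mode r i z = none
          · rw [h1]; simp
          · rw [if_pos h1]
        have f := follow wX wZ hab _ hZ (fun t h1 h2 i h3 => by
            have := hX.vis hpX hr' h1 h2 i false h3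
            rw [hmode] at this
            exact absurd this (by simp))
          (fun t h1 h2 => hwX _ (hX.hB r hr' t h1 h2 (by rw [hmode]; simp)))
        have hZY : Agree (fun i z => own p mode r i z = some true) (M.run wZ (κ r))
            (M.run wY (κ r)) := by
          obtain ⟨g1, g2, g3, _⟩ := eq r (by omega)
          exact ⟨hZ.1.trans g1, hZ.2.1.trans g2, hZ.2.2.1.trans g3, hV⟩
        have g := follow wY wZ hab _ hZY (fun t h1 h2 i h3 => by
            have := hY.vis hpY hr' h1 h2 i true h3
            rw [hmode] at this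
            exact absurd this (by simp))
          (fun t h1 h2 => hwY _ (hY.hA r hr' t h1 h2 (by rw [hmode]; simp)))
        obtain ⟨⟨f1, f2, f3, f4⟩, _⟩ := f
        obtain ⟨⟨_, _, _, g4⟩, _⟩ := g
        exact ⟨⟨f1, f2, f3, fun i z hz => f4 i z (by simpa only [own'] using hz)⟩,
          fun i z hz => g4 i z (by simpa only [own'] using hz)⟩
      · have ho' : ∀ i z, own p mode (r + 1) i z = if own p mode r i z ≠ none then
            own p mode r i z else if Btw (p r i) (p (r + 1) i) z then some μ else none := by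
          intro i z
          rw [own, hmode]
        obtain ⟨a1, a2, a3, a4⟩ := eq r (by omega)
        obtain ⟨b1, b2, b3, b4⟩ := eq (r + 1) hr
        have hne : mode r ≠ none := by rw [hmode]; simp
        have hbX := hX.hb r hr' hne
        have hbY := hY.hb r hr' hne
        have hc1 : ∀ ν, μ = !ν → ∀ t, κ r ≤ t → t < κ (r + 1) → ∀ i,
            own p mode r i ((M.run wX t).pos i) ≠ some ν := by
          intro ν hν t h1 h2 i h3
          have := hX.vis hpX hr' h1 h2 i ν h3
          rw [hmode, hν] at this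
          cases ν <;> simp at this
        have hc2 : ∀ ν, μ = !ν → ∀ t, κ r ≤ t → t < κ (r + 1) → ∀ i,
            own p mode r i ((M.run wY t).pos i) ≠ some ν := by
          intro ν hν t h1 h2 i h3
          have := hY.vis hpY hr' h1 h2 i ν h3
          rw [hmode, hν] at this
          cases ν <;> simp at this
        cases μ with
        | true =>
          exact seg_mode wX wY wZ hab true (own p mode r) (own p mode (r + 1)) hZ hV
            (hc1 false rfl) (hc2 false rfl)
            (fun t h1 h2 => hwX _ (hX.hB r hr' t h1 h2 (by rw [hmode]; simp))) ho' a3 b3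
            hbX (by rw [a3, b3]; exact hbY) b4 (eq2 r hr')
        | false =>
          have hZY : Agree (fun i z => own p mode r i z = some (!false)) (M.run wZ (κ r))
              (M.run wY (κ r)) :=
            ⟨hZ.1.trans a1, hZ.2.1.trans a2, hZ.2.2.1.trans a3, hV⟩
          have hVX : ∀ i z, own p mode r i z ≠ some false →
              (M.run wZ (κ r)).tape i z = (M.run wX (κ r)).tape i z := hZ.2.2.2
          obtain ⟨⟨s1, s2, s3, s4⟩, s5⟩ := seg_mode wY wX wZ hab false (own p mode r)
            (own p mode (r + 1)) hZY hVX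
            (hc2 true rfl) (hc1 true rfl)
            (fun t h1 h2 => hwY _ (hY.hA r hr' t h1 h2 (by rw [hmode]; simp)))
            (by rw [← a3, ← b3]; exact ho') a3.symm b3.symm
            hbY (by rw [← a3, ← b3]; exact hbX)
            (fun i => by rw [← b3]; exact (b4 i).symm)
            (fun i => by rw [← a3]; exact (eq2 r hr' i).symm)
          exact ⟨⟨s1.trans b1.symm, s2.trans b2.symm, s3.trans b3.symm, s5⟩, s4⟩
  have h := (key R le_rfl).1.1
  rw [hX.κR] at h
  exact h

end Pool.Agent.Lib57.RTM
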