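import Mathlib
import Pool.Agent.Lib_helper57.RTM.Hyb
import Pool.Agent.Lib_helper57.RTM.Comb

/-! Existence of a schedule. -/

namespace Pool.Agent.Lib57.RTM

open Function

variable {α : Type} {k : ℕ} (M : Machine α k) (w : List α)

/-- the times before `T` at which the input head is on a position of the set `c` -/
def tm (T : ℕ) (c : Set ℕ) : Set ℕ := {t | t < T ∧ (M.run w t).inp ∈ c}

/-- head positions -/
def ps (i : Fin k) (t : ℕ) : ℤ := (M.run w t).pos i

theorem tm_cvx (T : ℕ) {c : Set ℕ} (hc : Cvx c) : Cvx (tm M w T c) := by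
  rintro a ⟨_, ha⟩ b ⟨hb, hb'⟩ t hat htb
  exact ⟨by omega, hc _ ha _ hb' _ (inp_mono M w hat) (inp_mono M w htb)⟩

/-- images for words over finite index sets -/
def ext {P : ℕ} (ω : Fin P → Option (Fin k)) (n : ℕ) : Option (Fin k) :=
  if h : n < P then ω ⟨n, h⟩ else none

/-- images of a set of times -/
def Im (T P : ℕ) (ω : Fin P → Option (Fin k)) (J : Set ℕ) : Set ℕ :=
  img T (ps M w) (ph M w) (ext ω) P J

variable {M w}

theorem mem_Im {T P : ℕ} {ω : ℕ → Option (Fin k)} {J : Set ℕ} {t : ℕ}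
    (h : t ∈ img T (ps M w) (ph M w) ω P J) : ∃ ω', t ∈ Im M w T P ω' J := by
  refine ⟨fun i => ω i, ?_⟩
  unfold Im
  rw [img_congr T (ps M w) (ph M w) (ω' := ω) (fun m hm => by simp [ext, hm])]
  exact h

theorem self_Im {T P : ℕ} {J : Set ℕ} {t : ℕ} (h : t ∈ J) :
    ∃ ω', t ∈ Im M w T P ω' J := by
  apply mem_Im (ω := fun _ => none)
  rw [img_none T (ps M w) (ph M w) (Nat.zero_le P) (fun _ _ _ => rfl)]
  exact h

theorem back {T P Q0 : ℕ} {J : Set ℕ} (hJ : ∀ t ∈ J, ph M w t = Q0)
    (hP : ∀ t, ph M w t < P) {ω : Fin P → Option (Fin k)} {a b t : ℕ} (hab : a ≤ b) (hbt : b ≤ t)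
    (ht : t < T) (ha : a ∈ Im M w T P ω J) (hb : b ∈ Im M w T P ω J) (i : Fin k)
    (h : Btw (ps M w i a) (ps M w i b) (ps M w i t)) :
    ∃ ω', t ∈ Im M w T P ω' J := by
  obtain ⟨q, h1, _⟩ := img_order (T := T) (pos := ps M w) (ph := ph M w)
    (fun τ Q => phase_mono M w τ Q) (ext ω) P Q0
  have ha' : ph M w a = q := h1 J (fun t ht => hJ t ht) ha
  have hb' : ph M w b = q := h1 J (fun t ht => hJ t ht) hb
  have hq : q ≠ ph M w t := by
    intro hq
    unfold Btw at h
    rcases phase_mono M w i q with h2 | h2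
    · have h3 := h2 a b hab ha' hb'
      have h4 := h2 b t hbt hb' hq.symm
      have h5 : ps M w i a ≤ ps M w i b := h3
      have h6 : ps M w i b ≤ ps M w i t := h4
      rw [max_eq_right h5] at h
      omega
    · have h3 := h2 a b hab ha' hb'
      have h4 := h2 b t hbt hb' hq.symm
      have h5 : ps M w i b ≤ ps M w i a := h3
      have h6 : ps M w i t ≤ ps M w i b := h4
      rw [min_eq_right h5] at h
      omega
  have hlt : q < ph M w t := lt_of_le_of_ne (by rw [← hb']; exact ph_mono M w hbt) hq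
  rcases img_phase (T := T) (pos := ps M w) (ph := ph M w) (ω := ext ω) (hP t).le J with h2 | h2
  · unfold Im at ha hb
    rw [h2] at ha hb
    obtain ⟨ω', hω'⟩ := img_closed (T := T) (pos := ps M w) (ph := ph M w) (ω := ext ω) (τ := i)
      (hP t) (J := J) (t := t) ⟨ht, rfl, by
        unfold Btw at h
        rcases le_total (ps M w i a) (ps M w i b) with h3 | h3
        · rw [min_eq_left h3, max_eq_right h3] at h
          exact ⟨a, ha, b, hb, h.1, h.2⟩
        · rw [min_eq_right h3, max_eq_left h3] at h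
          exact ⟨b, hb, a, ha, h.1, h.2⟩⟩
    exact mem_Im hω'
  · have := h2 a ha
    omega

/-- the three cuts of a set -/
noncomputable def cutsOf (S : Set ℕ) : Fin 3 → ℕ
  | 0 => sInf S
  | 1 => sSup S
  | 2 => sSup S + 1

theorem seg_fact {T : ℕ} {S : Set ℕ} (hS : Cvx S) (hT : ∀ t ∈ S, t < T) {x y t : ℕ}
    (h : ∀ j : Fin 3, cutsOf S j ≤ T → cutsOf S j ≤ x ∨ y ≤ cutsOf S j) (ht : t ∈ S)
    (h1 : x ≤ t) (h2 : t < y) :
    (∀ s, x ≤ s → s < y → s ∈ S) ∧ (y ∈ S ∨ y = x + 1) := by
  have hbdd : BddAbove S := ⟨T, fun s hs => (hT s hs).le⟩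
  have h3 : sInf S ∈ S := Nat.sInf_mem ⟨t, ht⟩
  have h4 : sSup S ∈ S := Nat.sSup_mem ⟨t, ht⟩ hbdd
  have h5 : sInf S ≤ t := Nat.sInf_le ht
  have h6 : t ≤ sSup S := le_csSup hbdd ht
  have h7 := hT _ h4
  have h8 := hT _ h3
  have c0 := h 0 h8.le
  have c1 := h 1 h7.le
  have c2 := h 2 h7
  simp only [cutsOf] at c0 c1 c2
  refine ⟨fun s hs1 hs2 => hS _ h3 _ h4 s (by omega) (by omega), ?_⟩
  rcases Nat.lt_or_ge (sSup S) y with h9 | h9
  · right
    omega
  · left
    exact hS _ h3 _ h4 y (by omega) h9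

theorem exists_sched {T P Q0 : ℕ} {cA cB : Set ℕ} (hcA : Cvx cA) (hcB : Cvx cB)
    (hA : ∀ t ∈ tm M w T cA, ph M w t = Q0) (hB : ∀ t ∈ tm M w T cB, ph M w t = Q0)
    (hP : ∀ t, ph M w t < P)
    (hdisj : ∀ ω ω' t, t ∈ Im M w T P ω (tm M w T cA) → t ∈ Im M w T P ω' (tm M w T cB) → False) :
    ∃ κ mode, IsSched M w T (Fintype.card (Fin P → Option (Fin k)) * 2 * 3 + 2) cA cB κ mode := by
  classical
  let J : Bool → Set ℕ := fun b => if b then tm M w T cA else tm M w T cB
  have hJph : ∀ b, ∀ t ∈ J b, ph M w t = Q0 := by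
    intro b; cases b
    · exact hB
    · exact hA
  have hJcvx : ∀ b, Cvx (J b) := by
    intro b; cases b
    · exact tm_cvx M w T hcB
    · exact tm_cvx M w T hcA
  have hJT : ∀ b, ∀ t ∈ J b, t < T := by
    intro b; cases b
    · exact fun t ht => ht.1
    · exact fun t ht => ht.1
  have hScvx : ∀ ω b, Cvx (Im M w T P ω (J b)) := fun ω b =>
    img_cvx (fun s t h => ph_mono M w h) (fun τ Q => phase_mono M w τ Q) (ext ω) P (hJcvx b)
  have hST : ∀ ω b, ∀ t ∈ Im M w T P ω (J b), t < T := fun ω b => img_lt (hJT b)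
  let C0 : Finset ℕ := Finset.univ.image
    (fun p : (Fin P → Option (Fin k)) × Bool × Fin 3 => cutsOf (Im M w T P p.1 (J p.2.1)) p.2.2)
  let C : Finset ℕ := insert 0 (insert T (C0.filter (· ≤ T)))
  have hcard : C.card ≤ Fintype.card (Fin P → Option (Fin k)) * 2 * 3 + 2 := by
    have h1 : C0.card ≤ Fintype.card (Fin P → Option (Fin k)) * 2 * 3 := by
      refine Finset.card_image_le.trans ?_
      rw [Finset.card_univ, Fintype.card_prod, Fintype.card_prod, Fintype.card_bool,
        Fintype.card_fin, Nat.mul_assoc]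
    have h2 := Finset.card_filter_le C0 (· ≤ T)
    have h3 := Finset.card_insert_le T (C0.filter (· ≤ T))
    have h4 := Finset.card_insert_le 0 (insert T (C0.filter (· ≤ T)))
    show (insert 0 (insert T (C0.filter (· ≤ T)))).card ≤ _
    omega
  obtain ⟨κ, κ0, κR, κmono, κmem, κgap⟩ := enum_cuts C T _ (by simp [C]) (by simp [C]) (by
    intro c hc
    simp only [C, Finset.mem_insert, Finset.mem_filter] at hc
    rcases hc with h | h | h
    · omega
    · exact h.le
    · exact h.2) hcard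
  have hκle : ∀ r, r ≤ Fintype.card (Fin P → Option (Fin k)) * 2 * 3 + 2 → κ r ≤ T := by
    intro r hr
    rw [← κR]
    exact monotone_nat_of_le_succ κmono hr
  have hgap : ∀ ω b r, ∀ j : Fin 3, cutsOf (Im M w T P ω (J b)) j ≤ T →
      cutsOf (Im M w T P ω (J b)) j ≤ κ r ∨ κ (r + 1) ≤ cutsOf (Im M w T P ω (J b)) j := by
    intro ω b r j hj
    apply κgap
    simp only [C, Finset.mem_insert, Finset.mem_filter]
    right; right
    refine ⟨?_, hj⟩
    exact Finset.mem_image.2 ⟨(ω, b, j), Finset.mem_univ _, rfl⟩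
  have hdisj' : ∀ b ω ω' t, t ∈ Im M w T P ω (J b) → t ∈ Im M w T P ω' (J (!b)) → False := by
    intro b ω ω' t h1 h2
    cases b
    · exact hdisj ω' ω t h2 h1
    · exact hdisj ω ω' t h1 h2
  let mode : ℕ → Option Bool := fun r =>
    if (∃ ω, κ r ∈ Im M w T P ω (J true)) then some true else
    if (∃ ω, κ r ∈ Im M w T P ω (J false)) then some false else none
  have hmode1 : ∀ r b, mode r = some b → ∃ ω, κ r ∈ Im M w T P ω (J b) := by
    intro r b h
    simp only [mode] at h
    split_ifs at h with h1 h2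
    · cases h; exact h1
    · cases h; exact h2
  have hmode2 : ∀ r b ω, κ r ∈ Im M w T P ω (J b) → mode r = some b := by
    intro r b ω h
    simp only [mode]
    cases b
    · rw [if_neg (fun ⟨ω', h'⟩ => hdisj' false ω ω' _ h h'), if_pos ⟨ω, h⟩]
    · rw [if_pos ⟨ω, h⟩]
  have hmode3 : ∀ r b ω t, κ r ≤ t → t < κ (r + 1) → t ∈ Im M w T P ω (J b) →
      mode r = some b := by
    intro r b ω t h1 h2 h3
    obtain ⟨h4, _⟩ := seg_fact (hScvx ω b) (hST ω b) (hgap ω b r) h3 h1 h2
    exact hmode2 r b ω (h4 _ le_rfl (by omega))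
  refine ⟨κ, mode, κ0, κR, fun r _ => κmono r, ?_, ?_, ?_, ?_⟩
  · intro r hr hne t ht1 ht2 i
    rcases hm : mode r with _ | b
    · exact absurd hm hne
    obtain ⟨ω, hω⟩ := hmode1 r b hm
    have triv : t = κ r ∨ t = κ (r + 1) →
        min ((M.run w (κ r)).pos i) ((M.run w (κ (r + 1))).pos i) ≤ (M.run w t).pos i ∧
        (M.run w t).pos i ≤ max ((M.run w (κ r)).pos i) ((M.run w (κ (r + 1))).pos i) := by
      rintro (h | h) <;> rw [h]
      · exact ⟨min_le_left _ _, le_max_left _ _⟩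
      · exact ⟨min_le_right _ _, le_max_right _ _⟩
    rcases (κmono r).eq_or_lt with h1 | h1
    · exact triv (Or.inl (by omega))
    · rcases (seg_fact (hScvx ω b) (hST ω b) (hgap ω b r) hω le_rfl h1).2 with h2 | h2
      · obtain ⟨q, h3, _⟩ := img_order (T := T) (pos := ps M w) (ph := ph M w)
          (fun τ Q => phase_mono M w τ Q) (ext ω) P Q0
        have ha : ph M w (κ r) = q := h3 (J b) (fun t ht => hJph b t ht) hω
        have hb : ph M w (κ (r + 1)) = q := h3 (J b) (fun t ht => hJph b t ht) h2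
        have hc : ph M w t = q := by
          have := ph_mono M w ht1
          have := ph_mono M w ht2
          omega
        rcases phase_mono M w i q with h4 | h4
        · have h5 := h4 _ _ ht1 ha hc
          have h6 := h4 _ _ ht2 hc hb
          exact ⟨(min_le_left _ _).trans h5, h6.trans (le_max_right _ _)⟩
        · have h5 := h4 _ _ ht1 ha hc
          have h6 := h4 _ _ ht2 hc hb
          exact ⟨(min_le_right _ _).trans h6, h5.trans (le_max_left _ _)⟩
      · exact triv (by omega)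
  · intro r hr t ht1 ht2 i s hs hne hbtw
    rcases hm : mode s with _ | b
    · exact absurd hm hne
    obtain ⟨ω, hω⟩ := hmode1 s b hm
    have hlt : κ s < κ (s + 1) := by
      rcases (κmono s).eq_or_lt with h1 | h1
      · rw [← h1] at hbtw
        unfold Btw at hbtw
        rw [min_self, max_self] at hbtw
        omega
      · exact h1
    have hend : κ (s + 1) ∈ Im M w T P ω (J b) := by
      rcases (seg_fact (hScvx ω b) (hST ω b) (hgap ω b s) hω le_rfl hlt).2 with h2 | h2
      · exact h2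
      · exfalso
        rw [h2] at hbtw
        have h3 := pos_step M w (κ s) i
        rw [abs_le] at h3
        unfold Btw at hbtw
        rcases le_total ((M.run w (κ s)).pos i) ((M.run w (κ s + 1)).pos i) with h4 | h4
        · rw [min_eq_left h4, max_eq_right h4] at hbtw
          omega
        · rw [min_eq_right h4, max_eq_left h4] at hbtw
          omega
    have hsr : κ (s + 1) ≤ t := (monotone_nat_of_le_succ κmono (show s + 1 ≤ r from hs)).trans ht1
    have htT : t < T := lt_of_lt_of_le ht2 (hκle (r + 1) hr)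
    obtain ⟨ω', hω'⟩ := back (hJph b) hP hlt.le hsr htT hω hend i hbtw
    exact hmode3 r b ω' t ht1 ht2 hω'
  · intro r hr t ht1 ht2 hne hin
    have htT : t < T := lt_of_lt_of_le ht2 (hκle (r + 1) hr)
    obtain ⟨ω', hω'⟩ := self_Im (M := M) (w := w) (T := T) (P := P) (J := J true) (t := t)
      ⟨htT, hin⟩
    exact hne (hmode3 r true ω' t ht1 ht2 hω')
  · intro r hr t ht1 ht2 hne hin
    have htT : t < T := lt_of_lt_of_le ht2 (hκle (r + 1) hr)
    obtain ⟨ω', hω'⟩ := self_Im (M := M) (w := w) (T := T) (P := P) (J := J false) (t := t)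
      ⟨htT, hin⟩
    exact hne (hmode3 r false ω' t ht1 ht2 hω')

/-- selection of a chunk with a schedule -/
theorem exists_chunk_sched {T P : ℕ} (hP : ∀ t, ph M w t < P) (B Nc : ℕ)
    (hB : Fintype.card ((Fin P → Option (Fin k)) × (Fin P → Option (Fin k))) < B)
    (hN : Fintype.card ((Fin P → Option (Fin k)) × (Fin P → Option (Fin k))) < Nc)
    (cI cI' : ℕ → ℕ → Set ℕ) (hcI : ∀ i c, Cvx (cI i c)) (hcI' : ∀ i c, Cvx (cI' i c))
    (len : ℕ) (hlo : ∀ i c n, c < Nc → n ∈ cI i c → i * len ≤ n ∧ n < (i + 1) * len)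
    (hlo' : ∀ i c n, c < Nc → n ∈ cI' i c → i * len ≤ n ∧ n < (i + 1) * len)
    (o1 : ∀ i c c', c < c' → c' < Nc → Lt (cI i c) (cI i c'))
    (o2 : ∀ i c c', c < c' → c' < Nc → Lt (cI' i c') (cI' i c)) :
    ∃ i c, i < P * B ∧ c < Nc ∧ ∃ κ mode, IsSched M w T
      (Fintype.card (Fin P → Option (Fin k)) * 2 * 3 + 2) (cI i c) (cI' i c) κ mode := by
  -- a superblock in one phase
  have hsup : ∃ q, q < P ∧ ∃ Q0, ∀ t, t < T → q * B * len ≤ (M.run w t).inp →
      (M.run w t).inp < (q + 1) * B * len → ph M w t = Q0 := by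
    by_contra hcon
    push Not at hcon
    have key : ∀ q, q ≤ P → ∃ t, q ≤ ph M w t ∧
        ∀ t', t' < T → q * B * len ≤ (M.run w t').inp → t ≤ t' := by
      intro q
      induction q with
      | zero => intro _; exact ⟨0, Nat.zero_le _, fun t' _ _ => Nat.zero_le t'⟩
      | succ q ih =>
        intro hq
        obtain ⟨t, h1, h2⟩ := ih (by omega)
        obtain ⟨t1, a1, a2, a3, _⟩ := hcon q (by omega) (ph M w 0)
        obtain ⟨t2, b1, b2, b3, b4⟩ := hcon q (by omega) (ph M w t1)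
        have : ∃ s, s < T ∧ (M.run w s).inp < (q + 1) * B * len ∧ q + 1 ≤ ph M w s := by
          rcases le_total t1 t2 with h3 | h3
          · have h4 := ph_mono M w h3
            have h5 := ph_mono M w (h2 t1 a1 a2)
            exact ⟨t2, b1, b3, by omega⟩
          · have h4 := ph_mono M w h3
            have h5 := ph_mono M w (h2 t2 b1 b2)
            exact ⟨t1, a1, a3, by omega⟩
        obtain ⟨s, c1, c2, c3⟩ := this
        refine ⟨s, c3, fun t' h6 h7 => ?_⟩
        by_contra h8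
        have h9 := inp_mono M w (show t' ≤ s by omega)
        omega
    obtain ⟨t, h1, _⟩ := key P le_rfl
    have := hP t
    omega
  obtain ⟨q, hq, Q0, hQ0⟩ := hsup
  have hmonoT : ∀ {cs cs' : Set ℕ}, Lt cs cs' → Lt (tm M w T cs) (tm M w T cs') := by
    intro cs cs' h a ha b hb
    have h1 := h _ ha.2 _ hb.2
    by_contra h2
    have h3 := inp_mono M w (show b ≤ a by omega)
    omega
  have hin : ∀ i, i < B → ∀ n, (q * B + i) * len ≤ n → n < (q * B + i + 1) * len →
      q * B * len ≤ n ∧ n < (q + 1) * B * len := by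
    intro i hi n h1 h2
    constructor
    · refine le_trans ?_ h1
      exact Nat.mul_le_mul_right _ (by omega)
    · refine lt_of_lt_of_le h2 ?_
      apply Nat.mul_le_mul_right
      have : (q + 1) * B = q * B + B := by ring
      omega
  have hph : ∀ i c, i < B → c < Nc → tm M w T (cI (q * B + i) c) ⊆ {t | ph M w t = Q0} := by
    intro i c hi hc t ht
    obtain ⟨h1, h2⟩ := hlo _ _ _ hc ht.2
    obtain ⟨h3, h4⟩ := hin i hi _ h1 h2
    exact hQ0 t ht.1 h3 h4
  have hph' : ∀ i c, i < B → c < Nc → tm M w T (cI' (q * B + i) c) ⊆ {t | ph M w t = Q0} := by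
    intro i c hi hc t ht
    obtain ⟨h1, h2⟩ := hlo' _ _ _ hc ht.2
    obtain ⟨h3, h4⟩ := hin i hi _ h1 h2
    exact hQ0 t ht.1 h3 h4
  have hblk : ∀ i i', i < i' → (q * B + i + 1) * len ≤ (q * B + i') * len := by
    intro i i' h
    exact Nat.mul_le_mul_right _ (by omega)
  obtain ⟨i, c, hi, hc, hgood⟩ := exists_good (Im M w T P) {t | ph M w t = Q0} (fun ω => by
      obtain ⟨q', _, h2⟩ := img_order (T := T) (pos := ps M w) (ph := ph M w)
        (fun τ Q => phase_mono M w τ Q) (ext ω) P Q0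
      exact h2) B Nc hB hN (fun i c => tm M w T (cI (q * B + i) c))
    (fun i c => tm M w T (cI' (q * B + i) c)) hph hph'
    (fun i c c' _ h1 h2 => hmonoT (o1 _ _ _ h1 h2))
    (fun i c c' _ h1 h2 => hmonoT (o2 _ _ _ h1 h2))
    (fun i i' c c' h1 _ h3 h4 => hmonoT (by
      intro a ha b hb
      have := hlo _ _ _ h3 ha
      have := hlo _ _ _ h4 hb
      have := hblk i i' h1
      omega))
    (fun i i' c c' h1 _ h3 h4 => hmonoT (by
      intro a ha b hb
      have := hlo' _ _ _ h3 ha
      have := hlo' _ _ _ h4 hb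
      have := hblk i i' h1
      omega))
  refine ⟨q * B + i, c, ?_, hc, ?_⟩
  · have : (q + 1) * B ≤ P * B := Nat.mul_le_mul_right _ hq
    have : (q + 1) * B = q * B + B := by ring
    omega
  · exact exists_sched (hcI _ _) (hcI' _ _) (hph i c hi hc) (hph' i c hi hc) hP hgood

end Pool.Agent.Lib57.RTM
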