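import Mathlib
import Pool.Agent.Lib_helper57.RTM.Build2
import Pool.Agent.Lib_helper57.RTM.Comb

/-! The words of the counting argument. -/

namespace Pool.Agent.Lib57.RTM

open Function

/-- a half block -/
def half (L : ℕ) (a : ℕ → Bool) : List Bool := (List.range L).map a

/-- the word with the half blocks `a s, a' s, a (s+1), a' (s+1), ...` -/
def wd (L : ℕ) (a a' : ℕ → ℕ → Bool) : ℕ → ℕ → List Sym
  | _, 0 => []
  | s, j + 1 => blk (half L (a s)) (half L (a' s)).reverse ++ wd L a a' (s + 1) j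

theorem half_length (L : ℕ) (a : ℕ → Bool) : (half L a).length = L := by simp [half]

theorem wd_length (L : ℕ) (a a' : ℕ → ℕ → Bool) (s j : ℕ) :
    (wd L a a' s j).length = j * (2 * L + 2) := by
  induction j generalizing s with
  | zero => simp [wd]
  | succ j ih =>
    rw [wd, List.length_append, ih, blk_length, List.length_reverse, half_length, half_length]
    ring

theorem wd_mem (L : ℕ) (a : ℕ → ℕ → Bool) (s j : ℕ) : wd L a a s j ∈ F j := by
  induction j generalizing s with
  | zero => exact Set.mem_singleton _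
  | succ j ih => exact ⟨half L (a s), wd L a a (s + 1) j, ih (s + 1), rfl⟩

theorem wd_not_mem (L : ℕ) (a a' : ℕ → ℕ → Bool) (s j i : ℕ) (hs : s ≤ i) (hi : i < s + j)
    (h : half L (a i) ≠ half L (a' i)) : wd L a a' s j ∉ F j := by
  induction j generalizing s with
  | zero => omega
  | succ j ih =>
    rintro ⟨u, z, hz, he⟩
    rw [wd] at he
    obtain ⟨h1, h2, h3⟩ := parse_blk he
    rcases hs.eq_or_lt with h4 | h4
    · subst h4
      apply h
      rw [h1]
      exact (List.reverse_injective h2).symm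
    · apply ih (s + 1) h4 (by omega)
      rw [h3]
      exact hz

theorem half_get (L : ℕ) (a : ℕ → Bool) (n : ℕ) :
    (half L a)[n]? = if n < L then some (a n) else none := by
  unfold half
  rw [List.getElem?_map]
  split_ifs with h
  · rw [List.getElem?_range h]; rfl
  · rw [List.getElem?_eq_none (by simp; omega)]; rfl

theorem half_rev_get (L : ℕ) (a : ℕ → Bool) (n : ℕ) (hn : n < L) :
    (half L a).reverse[n]? = some (a (L - 1 - n)) := by
  rw [List.getElem?_reverse (by rw [half_length]; exact hn), half_length, half_get,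
    if_pos (by omega)]

theorem blk_get (L : ℕ) (a a' b b' : ℕ → Bool) (n : ℕ) (h1 : n < L → a n = b n)
    (h2 : L < n → n ≤ 2 * L → a' (2 * L - n) = b' (2 * L - n)) :
    (blk (half L a) (half L a').reverse)[n]? = (blk (half L b) (half L b').reverse)[n]? := by
  unfold blk
  rcases Nat.lt_or_ge n L with h | h
  · rw [List.getElem?_append_left (by rw [List.length_map, half_length]; exact h),
      List.getElem?_append_left (by rw [List.length_map, half_length]; exact h),
      List.getElem?_map, List.getElem?_map, half_get, half_get, if_pos h, if_pos h, h1 h]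
  · rw [List.getElem?_append_right (by rw [List.length_map, half_length]; exact h),
      List.getElem?_append_right (by rw [List.length_map, half_length]; exact h),
      List.length_map, List.length_map, half_length, half_length]
    rcases h.eq_or_lt with h3 | h3
    · subst h3
      rw [Nat.sub_self]
      rfl
    · obtain ⟨d, rfl⟩ : ∃ d, n = L + (d + 1) := ⟨n - L - 1, by omega⟩
      rw [Nat.add_sub_cancel_left, List.getElem?_cons_succ, List.getElem?_cons_succ]
      rcases Nat.lt_or_ge d L with h4 | h4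
      · rw [List.getElem?_append_left (by
            rw [List.length_map, List.length_reverse, half_length]; exact h4),
          List.getElem?_append_left (by
            rw [List.length_map, List.length_reverse, half_length]; exact h4),
          List.getElem?_map, List.getElem?_map, half_rev_get _ _ _ h4, half_rev_get _ _ _ h4]
        have h5 := h2 h3 (by omega)
        have h6 : 2 * L - (L + (d + 1)) = L - 1 - d := by omega
        rw [h6] at h5
        rw [h5]
      · rw [List.getElem?_append_right (by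
            rw [List.length_map, List.length_reverse, half_length]; exact h4),
          List.getElem?_append_right (by
            rw [List.length_map, List.length_reverse, half_length]; exact h4)]
        simp [half_length]

theorem wd_get (L : ℕ) (a a' b b' : ℕ → ℕ → Bool) (s j n : ℕ)
    (h1 : ∀ i r, r < L → n = i * (2 * L + 2) + r → a (s + i) r = b (s + i) r)
    (h2 : ∀ i r, r < L → n + r = i * (2 * L + 2) + 2 * L → a' (s + i) r = b' (s + i) r) :
    (wd L a a' s j)[n]? = (wd L b b' s j)[n]? := by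
  induction j generalizing s n with
  | zero => rfl
  | succ j ih =>
    rw [wd, wd]
    rcases Nat.lt_or_ge n (2 * L + 2) with h | h
    · rw [List.getElem?_append_left (by
          rw [blk_length, List.length_reverse, half_length, half_length]; omega),
        List.getElem?_append_left (by
          rw [blk_length, List.length_reverse, half_length, half_length]; omega)]
      apply blk_get
      · intro h3
        exact h1 0 n h3 (by omega)
      · intro h3 h4
        exact h2 0 (2 * L - n) (by omega) (by omega)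
    · rw [List.getElem?_append_right (by
          rw [blk_length, List.length_reverse, half_length, half_length]; omega),
        List.getElem?_append_right (by
          rw [blk_length, List.length_reverse, half_length, half_length]; omega)]
      rw [blk_length, blk_length, List.length_reverse, List.length_reverse, half_length,
        half_length, half_length, half_length]
      apply ih
      · intro i r hr h3
        have := h1 (i + 1) r hr (by rw [Nat.add_mul]; omega)
        rw [show s + 1 + i = s + (i + 1) by omega]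
        exact this
      · intro i r hr h3
        have := h2 (i + 1) r hr (by rw [Nat.add_mul]; omega)
        rw [show s + 1 + i = s + (i + 1) by omega]
        exact this

/-! ### chunks -/

/-- positions of a chunk in the first half -/
def cI (Nc ℓ i c : ℕ) : Set ℕ :=
  {n | i * (2 * (Nc * ℓ) + 2) + c * ℓ ≤ n ∧ n < i * (2 * (Nc * ℓ) + 2) + (c + 1) * ℓ}

/-- positions of its mirror image -/
def cI' (Nc ℓ i c : ℕ) : Set ℕ :=
  {n | n + c * ℓ ≤ i * (2 * (Nc * ℓ) + 2) + 2 * (Nc * ℓ) ∧
    i * (2 * (Nc * ℓ) + 2) + 2 * (Nc * ℓ) < n + (c + 1) * ℓ}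

theorem cI_cvx (Nc ℓ i c : ℕ) : Cvx (cI Nc ℓ i c) := by
  rintro a ⟨h1, _⟩ b ⟨_, h2⟩ t h3 h4
  exact ⟨by omega, by omega⟩

theorem cI'_cvx (Nc ℓ i c : ℕ) : Cvx (cI' Nc ℓ i c) := by
  rintro a ⟨_, h1⟩ b ⟨h2, _⟩ t h3 h4
  exact ⟨by omega, by omega⟩

theorem cI_lo {Nc ℓ i c n : ℕ} (hc : c < Nc) (h : n ∈ cI Nc ℓ i c) :
    i * (2 * (Nc * ℓ) + 2) ≤ n ∧ n < (i + 1) * (2 * (Nc * ℓ) + 2) := by
  have h1 : (c + 1) * ℓ ≤ Nc * ℓ := Nat.mul_le_mul_right _ hc
  obtain ⟨h2, h3⟩ := h
  constructor
  · omega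
  · rw [Nat.add_mul]; omega

theorem cI'_lo {Nc ℓ i c n : ℕ} (hc : c < Nc) (h : n ∈ cI' Nc ℓ i c) :
    i * (2 * (Nc * ℓ) + 2) ≤ n ∧ n < (i + 1) * (2 * (Nc * ℓ) + 2) := by
  have h1 : (c + 1) * ℓ ≤ Nc * ℓ := Nat.mul_le_mul_right _ hc
  obtain ⟨h2, h3⟩ := h
  constructor
  · omega
  · rw [Nat.add_mul]; omega

theorem cI_o1 {Nc ℓ i c c' : ℕ} (h : c < c') : Lt (cI Nc ℓ i c) (cI Nc ℓ i c') := by
  rintro a ⟨_, h1⟩ b ⟨h2, _⟩
  have h3 : (c + 1) * ℓ ≤ c' * ℓ := Nat.mul_le_mul_right _ h
  omega

theorem cI'_o2 {Nc ℓ i c c' : ℕ} (h : c < c') : Lt (cI' Nc ℓ i c') (cI' Nc ℓ i c) := by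
  rintro a ⟨h1, _⟩ b ⟨_, h2⟩
  have h3 : (c + 1) * ℓ ≤ c' * ℓ := Nat.mul_le_mul_right _ h
  omega

/-- the bits of a family of chunks -/
def bits {j Nc ℓ : ℕ} (x : Fin j × Fin Nc → Fin ℓ → Bool) (i r : ℕ) : Bool :=
  if h : i < j ∧ r / ℓ < Nc ∧ r % ℓ < ℓ then x (⟨i, h.1⟩, ⟨r / ℓ, h.2.1⟩) ⟨r % ℓ, h.2.2⟩
  else false

theorem bits_eq {j Nc ℓ : ℕ} (x y : Fin j × Fin Nc → Fin ℓ → Bool) (p : Fin j × Fin Nc)
    (hxy : ∀ q, q ≠ p → x q = y q) {i r : ℕ} (h : ¬ (i = p.1.1 ∧ r / ℓ = p.2.1)) :
    bits x i r = bits y i r := by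
  unfold bits
  split_ifs with h1
  · rw [hxy]
    intro h2
    apply h
    rw [← h2]
    exact ⟨rfl, rfl⟩
  · rfl

theorem bits_ne {j Nc ℓ : ℕ} (x y : Fin j × Fin Nc → Fin ℓ → Bool) (p : Fin j × Fin Nc)
    (h : x p ≠ y p) : half (Nc * ℓ) (bits x p.1.1) ≠ half (Nc * ℓ) (bits y p.1.1) := by
  obtain ⟨o, ho⟩ := Function.ne_iff.1 h
  intro he
  have hℓ : 0 < ℓ := o.pos
  have h1 : p.2.1 * ℓ + o.1 < Nc * ℓ := by
    have h2 : (p.2.1 + 1) * ℓ ≤ Nc * ℓ := Nat.mul_le_mul_right _ p.2.2
    have h3 := o.2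
    rw [Nat.add_mul] at h2
    omega
  have h2 := congrArg (fun l => l[p.2.1 * ℓ + o.1]?) he
  simp only [half_get, if_pos h1, Option.some.injEq] at h2
  have h3 : (p.2.1 * ℓ + o.1) / ℓ = p.2.1 := by
    rw [Nat.add_comm, Nat.add_mul_div_right _ _ hℓ, Nat.div_eq_of_lt o.2, Nat.zero_add]
  have h4 : (p.2.1 * ℓ + o.1) % ℓ = o.1 := by
    rw [Nat.add_comm, Nat.add_mul_mod_self_right, Nat.mod_eq_of_lt o.2]
  unfold bits at h2
  simp only [h3, h4, p.1.2, p.2.2, o.2, and_self, dif_pos] at h2
  exact ho h2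

theorem div_chunk {ℓ r c : ℕ} (hℓ : 0 < ℓ) (h : r / ℓ = c) : c * ℓ ≤ r ∧ r < (c + 1) * ℓ := by
  subst h
  constructor
  · exact Nat.div_mul_le_self r ℓ
  · rw [Nat.add_mul, Nat.one_mul, Nat.mul_comm]
    exact Nat.lt_mul_div_succ r hℓ |>.trans_eq (by ring)

variable {j Nc ℓ : ℕ} (hℓ : 0 < ℓ) (x y : Fin j × Fin Nc → Fin ℓ → Bool) (p : Fin j × Fin Nc)
  (hxy : ∀ q, q ≠ p → x q = y q)

include hℓ hxy in
theorem word_x (n : ℕ) (hn : n ∉ cI' Nc ℓ p.1.1 p.2.1) :
    (wd (Nc * ℓ) (bits x) (bits x) 0 j)[n]? = (wd (Nc * ℓ) (bits x) (bits y) 0 j)[n]? := by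
  apply wd_get
  · intro i r _ _; rfl
  · intro i r hr h
    rw [Nat.zero_add]
    apply bits_eq x y p hxy
    rintro ⟨h1, h2⟩
    apply hn
    obtain ⟨h3, h4⟩ := div_chunk hℓ h2
    subst h1
    exact ⟨by omega, by omega⟩

include hℓ hxy in
theorem word_y (n : ℕ) (hn : n ∉ cI Nc ℓ p.1.1 p.2.1) :
    (wd (Nc * ℓ) (bits y) (bits y) 0 j)[n]? = (wd (Nc * ℓ) (bits x) (bits y) 0 j)[n]? := by
  apply wd_get
  · intro i r hr h
    rw [Nat.zero_add]
    symm
    apply bits_eq x y p hxy
    rintro ⟨h1, h2⟩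
    apply hn
    obtain ⟨h3, h4⟩ := div_chunk hℓ h2
    subst h1
    exact ⟨by omega, by omega⟩
  · intro i r _ _; rfl

end Pool.Agent.Lib57.RTM
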