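import Mathlib
import Pool.Agent.Lib_helper57.RTM.Sched
import Pool.Agent.Lib_helper57.RTM.Words

/-! The counting argument. -/

namespace Pool.Agent.Lib57.RTM

open Function Filter

/-- truncation to `Fin` -/
def fo (n a : ℕ) : Fin (n + 1) := ⟨a % (n + 1), Nat.mod_lt _ (Nat.succ_pos n)⟩

theorem fo_inj {n a b : ℕ} (ha : a ≤ n) (hb : b ≤ n) (h : fo n a = fo n b) : a = b := by
  unfold fo at h
  rw [Fin.mk.injEq, Nat.mod_eq_of_lt (by omega), Nat.mod_eq_of_lt (by omega)] at h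
  exact h

/-- the type of interface data at one cut -/
abbrev IfT (Q Γ : Type) (k T : ℕ) : Type :=
  Fin (T + 1) × Option Bool × Q × Fin (T + 1) × (Fin k → Fin (2 * T + 1)) × (Fin k → Γ) ×
    (Fin k → Γ)

/-- interface data at one cut -/
def ifc {α : Type} {k : ℕ} (M : Machine α k) (w : List α) (T : ℕ) (κ : ℕ → ℕ)
    (mode : ℕ → Option Bool) (r : ℕ) : IfT M.Q M.Γ k T :=
  (fo T (κ r), mode r, (M.run w (κ r)).q, fo T (M.run w (κ r)).inp,
    fun i => fo (2 * T) ((M.run w (κ r)).pos i + T).toNat,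
    fun i => (M.run w (κ r)).tape i ((M.run w (κ r)).pos i),
    fun i => (M.run w (κ (r + 1))).tape i ((M.run w (κ r)).pos i))

theorem kappa_le {α : Type} {k : ℕ} {M : Machine α k} {w : List α} {T R : ℕ} {cA cB : Set ℕ}
    {κ : ℕ → ℕ} {mode : ℕ → Option Bool} (h : IsSched M w T R cA cB κ mode) {r : ℕ}
    (hr : r ≤ R) : κ r ≤ T := by
  have key : ∀ d, r + d ≤ R → κ r ≤ κ (r + d) := by
    intro d
    induction d with
    | zero => intro _; exact le_rfl
    | succ d ih =>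
      intro hd
      exact (ih (by omega)).trans (h.mono (r + d) (by omega))
  have := key (R - r) (by omega)
  rw [show r + (R - r) = R by omega, h.κR] at this
  exact this

/-- the hybrid lemma in terms of the interface -/
theorem hybrid' {α : Type} {k : ℕ} {M : Machine α k} {wX wY wZ : List α} {T R : ℕ}
    {cA cB : Set ℕ} {κ κ' : ℕ → ℕ} {mode mode' : ℕ → Option Bool}
    (hX : IsSched M wX T R cA cB κ mode) (hY : IsSched M wY T R cA cB κ' mode')
    (eq : ∀ r, r ≤ R → ifc M wX T κ mode r = ifc M wY T κ' mode' r)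
    (hwX : ∀ n, n ∉ cB → wX[n]? = wZ[n]?) (hwY : ∀ n, n ∉ cA → wY[n]? = wZ[n]?) :
    (M.run wZ T).q = (M.run wX T).q := by
  have hκ : ∀ r, r ≤ R → κ r = κ' r := by
    intro r hr
    have h := eq r hr
    simp only [ifc, Prod.mk.injEq] at h
    exact fo_inj (kappa_le hX hr) (kappa_le hY hr) h.1
  have hm : ∀ r, r ≤ R → mode r = mode' r := by
    intro r hr
    have h := eq r hr
    simp only [ifc, Prod.mk.injEq] at h
    exact h.2.1
  have hY' : IsSched M wY T R cA cB κ mode := hY.congr hκ hm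
  have hpos : ∀ r, r ≤ R → (M.run wX (κ r)).pos = (M.run wY (κ r)).pos := by
    intro r hr
    have h := eq r hr
    simp only [ifc, Prod.mk.injEq] at h
    have h1 := h.2.2.2.2.1
    funext i
    have h2 := congrFun h1 i
    have a1 := pos_le M wX (κ r) i
    have a2 := pos_le M wY (κ r) i
    have a3 := kappa_le hX hr
    rw [abs_le] at a1 a2
    rw [← hκ r hr] at h2
    have h3 := fo_inj (by omega) (by omega) h2
    omega
  apply hybrid hX hY' _ _ hwX hwY
  · intro r hr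
    have h := eq r hr
    simp only [ifc, Prod.mk.injEq] at h
    rw [← hκ r hr] at h
    have a3 := kappa_le hX hr
    refine ⟨h.2.2.1, ?_, hpos r hr, ?_⟩
    · exact fo_inj ((inp_le M wX _).trans a3) ((inp_le M wY _).trans a3) h.2.2.2.1
    · intro i
      have h1 := congrFun h.2.2.2.2.2.1 i
      rw [h1, hpos r hr]
  · intro r hr i
    have h := eq r hr.le
    simp only [ifc, Prod.mk.injEq] at h
    rw [← hκ r hr.le, ← hκ (r + 1) hr] at h
    have h1 := congrFun h.2.2.2.2.2.2 i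
    rw [h1, hpos r hr.le]

/-- an exponential beats a polynomial -/
theorem exp_beats (E e : ℕ) : ∃ ℓ : ℕ, 1 ≤ ℓ ∧ E * ℓ ^ e < 2 ^ ℓ := by
  have h := tendsto_pow_const_div_const_pow_of_one_lt e (r := 2) (by norm_num)
  have h1 : ∀ᶠ n : ℕ in atTop, (n : ℝ) ^ e / 2 ^ n < 1 / (E + 1) :=
    h.eventually_lt_const (by positivity)
  obtain ⟨n, hn, hn1⟩ := (h1.and (eventually_ge_atTop 1)).exists
  refine ⟨n, hn1, ?_⟩
  rw [div_lt_div_iff₀ (by positivity) (by positivity), one_mul] at hn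
  have h2 : ((n ^ e * (E + 1) : ℕ) : ℝ) < ((2 ^ n : ℕ) : ℝ) := by push_cast; exact hn
  have h3 : n ^ e * (E + 1) < 2 ^ n := by exact_mod_cast h2
  have h4 : 0 < n ^ e := by positivity
  nlinarith

/-- the number of blocks that is too large for `k` tapes and `m` reversals -/
def bigJ (k m : ℕ) : ℕ :=
  (k * m + 1) * (Fintype.card ((Fin (k * m + 1) → Option (Fin k)) ×
    (Fin (k * m + 1) → Option (Fin k))) + 1)

theorem F_not_mem (k m : ℕ) : F (bigJ k m) ∉ LinRev Sym k m := by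
  classical
  rintro ⟨M, ⟨c, hc⟩, hrev, hacc⟩
  have := M.finQ
  have := M.finΓ
  let fQ : Fintype M.Q := Fintype.ofFinite M.Q
  let fΓ : Fintype M.Γ := Fintype.ofFinite M.Γ
  set P := k * m + 1 with hP
  set W := Fintype.card (Fin P → Option (Fin k)) with hW
  set B := Fintype.card ((Fin P → Option (Fin k)) × (Fin P → Option (Fin k))) + 1 with hB
  set R := W * 2 * 3 + 2 with hR
  have hj : bigJ k m = P * B := rfl
  set j := bigJ k m with hjdef
  -- choice of ℓ
  set D := 4 * c * j * B + 4 * c * j + 1 with hD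
  obtain ⟨ℓ, hℓ1, hℓ⟩ := exp_beats
    (j * B * (3 * (Fintype.card M.Q) * (Fintype.card M.Γ ^ k * Fintype.card M.Γ ^ k) *
      (D * D * D ^ k)) ^ (R + 1)) ((k + 2) * (R + 1))
  set N := j * (2 * (B * ℓ) + 2) with hN
  set T := c * N with hT
  have hT1 : 2 * T + 1 ≤ D * ℓ := by
    rw [hT, hN, hD]
    have h1 : c * j ≤ c * j * ℓ := Nat.le_mul_of_pos_right _ hℓ1
    nlinarith
  have hcard : Fintype.card (Fin j × Fin B) * Fintype.card (Fin (R + 1) → IfT M.Q M.Γ k T) <
      Fintype.card (Fin ℓ → Bool) := by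
    have e1 : Fintype.card (Fin j × Fin B) = j * B := by simp
    have e2 : Fintype.card (Fin ℓ → Bool) = 2 ^ ℓ := by simp
    have e3 : Fintype.card (IfT M.Q M.Γ k T) = (T + 1) * (3 * (Fintype.card M.Q * ((T + 1) *
        ((2 * T + 1) ^ k * (Fintype.card M.Γ ^ k * Fintype.card M.Γ ^ k))))) := by
      simp [IfT]
    rw [e1, e2, Fintype.card_fun, Fintype.card_fin, e3]
    refine lt_of_le_of_lt ?_ hℓ
    have e4 : ∀ X : ℕ, j * B * X ^ (R + 1) * ℓ ^ ((k + 2) * (R + 1)) =
        j * B * (X * ℓ ^ (k + 2)) ^ (R + 1) := by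
      intro X
      rw [mul_assoc (j * B), pow_mul, mul_pow X]
    rw [e4]
    refine Nat.mul_le_mul_left _ (Nat.pow_le_pow_left ?_ _)
    have h1 : T + 1 ≤ D * ℓ := by omega
    have h2 : (2 * T + 1) ^ k ≤ (D * ℓ) ^ k := Nat.pow_le_pow_left hT1 k
    calc (T + 1) * (3 * (Fintype.card M.Q * ((T + 1) *
        ((2 * T + 1) ^ k * (Fintype.card M.Γ ^ k * Fintype.card M.Γ ^ k)))))
        ≤ (D * ℓ) * (3 * (Fintype.card M.Q * ((D * ℓ) *
        ((D * ℓ) ^ k * (Fintype.card M.Γ ^ k * Fintype.card M.Γ ^ k))))) := by gcongr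
      _ = 3 * Fintype.card M.Q * (Fintype.card M.Γ ^ k * Fintype.card M.Γ ^ k) *
          (D * D * D ^ k) * ℓ ^ (k + 2) := by
        rw [mul_pow, pow_add]; ring
  -- words
  let u : (Fin j × Fin B → Fin ℓ → Bool) → List Sym := fun x => wd (B * ℓ) (bits x) (bits x) 0 j
  have hlen : ∀ x, (u x).length = N := fun x => wd_length _ _ _ _ _
  have hch : ∀ x : Fin j × Fin B → Fin ℓ → Bool, ∃ p : Fin j × Fin B, ∃ κ mode,
      IsSched M (u x) T R (cI B ℓ p.1.1 p.2.1) (cI' B ℓ p.1.1 p.2.1) κ mode := by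
    intro x
    obtain ⟨i, cc, hi, hcc, κ, mode, h⟩ := exists_chunk_sched (M := M) (w := u x) (T := T) (P := P)
      (fun t => Nat.lt_succ_of_le (ph_le M (u x) hrev t)) B B (Nat.lt_succ_self _)
      (Nat.lt_succ_self _) (cI B ℓ) (cI' B ℓ) (cI_cvx B ℓ) (cI'_cvx B ℓ)
      (2 * (B * ℓ) + 2) (fun i c n h1 h2 => cI_lo h1 h2) (fun i c n h1 h2 => cI'_lo h1 h2)
      (fun i c c' h1 _ => cI_o1 h1) (fun i c c' h1 _ => cI'_o2 h1)
    exact ⟨(⟨i, hi⟩, ⟨cc, hcc⟩), κ, mode, h⟩
  choose ic κ mode hs using hch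
  obtain ⟨⟨x, v⟩, ⟨y, v'⟩, hne, he⟩ := Fintype.exists_ne_map_eq_of_card_lt
    (fun q : (Fin j × Fin B → Fin ℓ → Bool) × (Fin ℓ → Bool) =>
      ((ic q.1, update q.1 (ic q.1) q.2, fun r : Fin (R + 1) =>
        ifc M (u q.1) T (κ q.1) (mode q.1) r.1) : (Fin j × Fin B) ×
          (Fin j × Fin B → Fin ℓ → Bool) × (Fin (R + 1) → IfT M.Q M.Γ k T)))
    (by
      rw [Fintype.card_prod, Fintype.card_prod (Fin j × Fin B → Fin ℓ → Bool) (Fin ℓ → Bool),
        Fintype.card_prod (Fin j × Fin B → Fin ℓ → Bool), Nat.mul_left_comm]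
      exact Nat.mul_lt_mul_of_pos_left hcard Fintype.card_pos)
  simp only [Prod.mk.injEq] at he
  obtain ⟨h1, h2, h3⟩ := he
  have hv : v = v' := by
    have := congrFun h2 (ic x)
    rw [update_self, h1, update_self] at this
    exact this
  have hxy : ∀ q, q ≠ ic x → x q = y q := by
    intro q hq
    have := congrFun h2 q
    rw [update_of_ne hq, update_of_ne (by rw [← h1]; exact hq)] at this
    exact this
  have hp : x (ic x) ≠ y (ic x) := by
    intro h
    apply hne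
    have : x = y := by
      funext q
      by_cases hq : q = ic x
      · rw [hq, h]
      · exact hxy q hq
    rw [this, hv]
  have hsy := hs y
  rw [← h1] at hsy
  have hq := hybrid' (wZ := wd (B * ℓ) (bits x) (bits y) 0 j) (hs x) hsy (fun r hr => by
      have := congrFun h3 ⟨r, Nat.lt_succ_of_le hr⟩
      exact this)
    (word_x hℓ1 x y (ic x) hxy) (word_y hℓ1 x y (ic x) hxy)
  -- acceptance
  have hlenZ : (wd (B * ℓ) (bits x) (bits y) 0 j).length = N := wd_length _ _ _ _ _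
  have haX := hc (u x)
  have haZ := hc (wd (B * ℓ) (bits x) (bits y) 0 j)
  rw [hlen] at haX
  rw [hlenZ] at haZ
  have hmem : u x ∈ F j := wd_mem _ _ _ _
  rw [hacc, Machine.accepts_iff haX] at hmem
  have hnot : wd (B * ℓ) (bits x) (bits y) 0 j ∉ F j :=
    wd_not_mem _ _ _ 0 j (ic x).1.1 (Nat.zero_le _) (by rw [Nat.zero_add]; exact (ic x).1.2)
      (bits_ne x y (ic x) hp)
  apply hnot
  rw [hacc, Machine.accepts_iff haZ, hq]
  exact hmem

end Pool.Agent.Lib57.RTM
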