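import Mathlib
import Pool.Agent.Lib_helper57.RTM.Basic

/-! Without reversals the work tapes are useless. -/

namespace Pool.Agent.Lib57.RTM

open Function

section

variable {α : Type} {k : ℕ} (M : Machine α k) (k' : ℕ)

/-- the cells ahead of the head are blank -/
def Fresh (c : Cfg M) : Prop := ∀ i z,
  (c.last i = .stay → z ≠ c.pos i → c.tape i z = M.blank) ∧
  (c.last i = .right → c.pos i < z → c.tape i z = M.blank) ∧
  (c.last i = .left → z < c.pos i → c.tape i z = M.blank)

open Classical in
/-- the machine keeping the scanned symbols in its state -/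
noncomputable def Machine.tapeless : Machine α k' where
  Q := M.Q × (Fin k → M.Γ)
  Γ := Unit
  finQ := by
    have := M.finQ
    have := M.finΓ
    infer_instance
  finΓ := inferInstance
  blank := ()
  start := (M.start, fun _ => M.blank)
  acc p := M.acc p.1
  δ p a _ := (M.δ p.1 a p.2).map fun r =>
    ((r.1, fun i => if r.2.2.2 i = .stay then r.2.2.1 i else M.blank), r.2.1, fun _ => (),
      fun _ => .stay)

variable {M}

theorem fresh_init : Fresh M M.init := fun _ _ => ⟨fun _ _ => rfl, fun _ _ => rfl, fun _ _ => rfl⟩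

theorem fresh_nxt {c : Cfg M} (hc : Fresh M c)
    {r : M.Q × Bool × (Fin k → M.Γ) × (Fin k → Dir)}
    (hr : ∀ i, (M.nxt c r).rev i = c.rev i) :
    Fresh M (M.nxt c r) ∧ ∀ i, (M.nxt c r).tape i ((M.nxt c r).pos i) =
      if r.2.2.2 i = .stay then r.2.2.1 i else M.blank := by
  have hr' : ∀ i, ¬ (r.2.2.2 i ≠ .stay ∧ c.last i ≠ .stay ∧ r.2.2.2 i ≠ c.last i) := by
    intro i h
    have := hr i
    simp only [Machine.nxt, if_pos h] at this
    omega
  constructor
  · intro i z
    have h1 := hr' i
    have h2 := hc i z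
    simp only [Machine.nxt]
    cases hd : r.2.2.2 i with
    | stay =>
      simp only [if_true, Dir.shift, add_zero]
      refine ⟨fun h3 h4 => ?_, fun h3 h4 => ?_, fun h3 h4 => ?_⟩
      · rw [update_of_ne h4]; exact h2.1 h3 h4
      · rw [update_of_ne (by omega)]; exact h2.2.1 h3 h4
      · rw [update_of_ne (by omega)]; exact h2.2.2 h3 h4
    | left =>
      simp only [reduceCtorEq, if_false, Dir.shift]
      refine ⟨fun h => absurd h (by simp), fun h => absurd h (by simp), fun _ h4 => ?_⟩
      rw [update_of_ne (by omega)]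
      cases hl : c.last i with
      | stay => exact h2.1 hl (by omega)
      | left => exact h2.2.2 hl (by omega)
      | right => exact absurd ⟨by simp [hd], by simp [hl], by simp [hd, hl]⟩ h1
    | right =>
      simp only [reduceCtorEq, if_false, Dir.shift]
      refine ⟨fun h => absurd h (by simp), fun _ h4 => ?_, fun h => absurd h (by simp)⟩
      rw [update_of_ne (by omega)]
      cases hl : c.last i with
      | stay => exact h2.1 hl (by omega)
      | right => exact h2.2.1 hl (by omega)
      | left => exact absurd ⟨by simp [hd], by simp [hl], by simp [hd, hl]⟩ h1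
  · intro i
    have h1 := hr' i
    simp only [Machine.nxt]
    cases hd : r.2.2.2 i with
    | stay => simp [Dir.shift]
    | left =>
      simp only [reduceCtorEq, if_false, Dir.shift]
      rw [update_of_ne (by omega)]
      cases hl : c.last i with
      | stay => exact (hc i _).1 hl (by omega)
      | left => exact (hc i _).2.2 hl (by omega)
      | right => exact absurd ⟨by simp [hd], by simp [hl], by simp [hd, hl]⟩ h1
    | right =>
      simp only [reduceCtorEq, if_false, Dir.shift]
      rw [update_of_ne (by omega)]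
      cases hl : c.last i with
      | stay => exact (hc i _).1 hl (by omega)
      | right => exact (hc i _).2.1 hl (by omega)
      | left => exact absurd ⟨by simp [hd], by simp [hl], by simp [hd, hl]⟩ h1

/-- relation between the configurations of the two machines -/
def TL (c' : Cfg (M.tapeless k')) (c : Cfg M) : Prop :=
  c'.q = (c.q, fun i => c.tape i (c.pos i)) ∧ c'.inp = c.inp ∧ ∀ i, c'.rev i = 0

theorem tl_step {w : List α} {c' : Cfg (M.tapeless k')} {c : Cfg M} (h : TL k' c' c)
    (hc : Fresh M c) (hr : ∀ i, (M.stepT w c).rev i = c.rev i) :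
    ((M.tapeless k').step w c' = none ↔ M.step w c = none) ∧
      TL k' ((M.tapeless k').stepT w c') (M.stepT w c) ∧ Fresh M (M.stepT w c) := by
  obtain ⟨h1, h2, h3⟩ := h
  have e : (M.tapeless k').δ c'.q w[c'.inp]? (fun i => c'.tape i (c'.pos i)) =
      (M.δ c.q w[c.inp]? (fun i => c.tape i (c.pos i))).map fun r =>
        ((r.1, fun i => if r.2.2.2 i = .stay then r.2.2.1 i else M.blank), r.2.1, fun _ => (),
          fun _ => .stay) := by
    rw [h1, h2]
    rfl
  cases hd : M.δ c.q w[c.inp]? (fun i => c.tape i (c.pos i)) with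
  | none =>
    rw [hd] at e
    have s1 : M.step w c = none := by rw [Machine.step_eq, hd]; rfl
    have s2 : (M.tapeless k').step w c' = none := by rw [Machine.step_eq, e]; rfl
    rw [Machine.stepT_none _ s1, Machine.stepT_none _ s2]
    exact ⟨by simp [s1, s2], ⟨h1, h2, h3⟩, hc⟩
  | some r =>
    rw [hd] at e
    have s1 : M.step w c = some (M.nxt c r) := by rw [Machine.step_eq, hd]; rfl
    rw [Machine.stepT_some _ s1] at hr ⊢
    obtain ⟨f1, f2⟩ := fresh_nxt hc hr
    have s2 : (M.tapeless k').step w c' = some ((M.tapeless k').nxt c'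
        ((r.1, fun i => if r.2.2.2 i = .stay then r.2.2.1 i else M.blank), r.2.1, fun _ => (),
          fun _ => .stay)) := by rw [Machine.step_eq, e]; rfl
    rw [Machine.stepT_some _ s2]
    refine ⟨by simp [s1, s2], ⟨?_, ?_, ?_⟩, f1⟩
    · show (r.1, _) = ((M.nxt c r).q, _)
      refine Prod.ext rfl ?_
      funext i
      exact (f2 i).symm
    · show c'.inp + _ = c.inp + _
      rw [h2]
    · intro i
      simp [Machine.nxt, h3]

theorem tl_run (hM : M.RevBounded 0) (w : List α) (t : ℕ) :
    TL k' ((M.tapeless k').run w t) (M.run w t) ∧ Fresh M (M.run w t) := by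
  induction t with
  | zero => exact ⟨⟨rfl, rfl, fun _ => rfl⟩, fresh_init⟩
  | succ t ih =>
    have hr : ∀ i, (M.stepT w (M.run w t)).rev i = (M.run w t).rev i := by
      intro i
      have h1 := hM w (t + 1) i
      have h2 := hM w t i
      rw [Machine.run_succ] at h1
      omega
    obtain ⟨h1, h2, h3⟩ := tl_step k' ih.1 ih.2 hr
    rw [Machine.run_succ, Machine.run_succ]
    exact ⟨h2, h3⟩

theorem tl_halted (hM : M.RevBounded 0) (w : List α) (t : ℕ) :
    (M.tapeless k').HaltedAt w t ↔ M.HaltedAt w t := by
  obtain ⟨h1, h2⟩ := tl_run k' hM w t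
  have hr : ∀ i, (M.stepT w (M.run w t)).rev i = (M.run w t).rev i := by
    intro i
    have h1 := hM w (t + 1) i
    have h2 := hM w t i
    rw [Machine.run_succ] at h1
    omega
  exact (tl_step k' h1 h2 hr).1

end

/-- the classes without reversals do not depend on the number of tapes -/
theorem linRev_zero (α : Type) (k k' m : ℕ) : LinRev α k 0 ⊆ LinRev α k' m := by
  rintro L ⟨M, ⟨c, hc⟩, h2, h3⟩
  refine ⟨M.tapeless k', ⟨c, fun w => (tl_halted k' h2 w _).2 (hc w)⟩, ?_, ?_⟩
  · intro w t i
    rw [(tl_run k' h2 w t).1.2.2 i]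
    exact Nat.zero_le m
  · intro w
    rw [h3 w]
    unfold Machine.Accepts
    constructor
    · rintro ⟨t, h4, h5⟩
      refine ⟨t, (tl_halted k' h2 w t).2 h4, ?_⟩
      show M.acc ((M.tapeless k').run w t).q.1 = true
      rw [(tl_run k' h2 w t).1.1]
      exact h5
    · rintro ⟨t, h4, h5⟩
      refine ⟨t, (tl_halted k' h2 w t).1 h4, ?_⟩
      have h6 : M.acc ((M.tapeless k').run w t).q.1 = true := h5
      rw [(tl_run k' h2 w t).1.1] at h6
      exact h6

end Pool.Agent.Lib57.RTM
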