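import Mathlib
import Pool.Agent.Lib_helper57.RTM.Count
import Pool.Agent.Lib_helper57.RTM.Zero

/-! The two hierarchy theorems. -/

namespace Pool.Agent.Lib57.RTM

theorem F_zero_mem' (k m : ℕ) : F 0 ∈ LinRev Sym k m :=
  linRevV_mono (fun _ => Nat.zero_le m) (F_zero_mem k)

/-- the last member of the sequence `F` in the class -/
theorem exists_last (k m : ℕ) : ∃ N, F N ∈ LinRev Sym k m ∧ F (N + 1) ∉ LinRev Sym k m := by
  by_contra hcon
  push Not at hcon
  have key : ∀ n, F n ∈ LinRev Sym k m := by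
    intro n
    induction n with
    | zero => exact F_zero_mem' k m
    | succ n ih => exact hcon n ih
  exact F_not_mem k m (key _)

theorem sep_tapes (k m : ℕ) (hm : 1 ≤ m) :
    ∃ L : Language Sym, L ∈ LinRev Sym (k + 1) m ∧ L ∉ LinRev Sym k m := by
  obtain ⟨N, h1, h2⟩ := exists_last k m
  exact ⟨F (N + 1), F_succ_tape hm h1, h2⟩

theorem sep_revs (k m : ℕ) (hk : 1 ≤ k) :
    ∃ L : Language Sym, L ∈ LinRev Sym k (m + 1) ∧ L ∉ LinRev Sym k m := by
  obtain ⟨N, h1, h2⟩ := exists_last k m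
  exact ⟨F (N + 1), F_succ_rev hk h1, h2⟩

theorem zero_eq (α : Type) (k : ℕ) : LinRev α (k + 1) 0 = LinRev α k 0 :=
  Set.Subset.antisymm (linRev_zero α (k + 1) k 0) (linRev_zero α k (k + 1) 0)

theorem classLT_tapes (k m : ℕ) : ClassLT k m (k + 1) m ↔ 1 ≤ m := by
  constructor
  · rintro ⟨_, h⟩
    by_contra hm
    have hm0 : m = 0 := by omega
    subst hm0
    exact h fun α _ => (zero_eq α k).subset
  · intro hm
    refine ⟨fun α _ => linRev_succ_tapes α k m, fun h => ?_⟩
    obtain ⟨L, h1, h2⟩ := sep_tapes k m hm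
    exact h2 (h Sym inferInstance h1)

theorem classLT_revs (k m : ℕ) (hk : 1 ≤ k) : ClassLT k m k (m + 1) := by
  refine ⟨fun α _ => linRev_succ_revs α k m, fun h => ?_⟩
  obtain ⟨L, h1, h2⟩ := sep_revs k m hk
  exact h2 (h Sym inferInstance h1)

end Pool.Agent.Lib57.RTM
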